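import Pool.Agent.Helper54.RC.Pow

/-!
# Fast kernel arithmetic for integer polynomials

A list of `n` integers is one natural number: digits in base `2 ^ (b + 1)` with offset `2 ^ b` (helper76's `lst`).
Products, rounding of all coefficients, windows and the `ℓ¹` norm cost `O(1)` operations with big natural numbers
(`Nat.mul`, `Nat.land`, `Nat.shiftRight`, `Nat.mod`).
-/

set_option autoImplicit false

open Helper49.LT

namespace Helper54.RC.Fast

open Helper76.RC.TPoly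

/-! ## Definitions (only fast operations of the kernel) -/

/-- `∑_{k < n} B ^ k`, `B = 2 ^ (b + 1)` -/
def on (b n : ℕ) : ℕ :=
  Nat.div (Nat.sub (Nat.pow 2 (Nat.mul (Nat.succ b) n)) 1) (Nat.sub (Nat.pow 2 (Nat.succ b)) 1)
/-- the offset of a list of length `n` -/
def of (b n : ℕ) : ℕ := Nat.mul (Nat.pow 2 b) (on b n)
/-- the signs -/
def sg (b O W : ℕ) : ℕ := Nat.land (Nat.shiftRight W b) O
/-- positive parts -/
def ps (b W S : ℕ) : ℕ := Nat.land W (Nat.mul S (Nat.sub (Nat.pow 2 b) 1))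
/-- negative parts -/
def ng (b O W S : ℕ) : ℕ :=
  Nat.sub (Nat.mul (Nat.pow 2 b) (Nat.sub O S)) (Nat.land W (Nat.mul (Nat.sub O S) (Nat.sub (Nat.pow 2 b) 1)))
/-- absolute values of all coefficients -/
def ab1 (b O W S : ℕ) : ℕ := Nat.add (ps b W S) (ng b O W S)
def ab (b O W : ℕ) : ℕ := ab1 b O W (sg b O W)
/-- upper bound of the `ℓ¹` norm; exact if all coefficients are less than `2 ^ r` -/
def l1a (b r n O Q : ℕ) : ℕ :=
  bif Nat.beq (Nat.land Q (Nat.mul O (Nat.sub (Nat.pow 2 (Nat.succ b)) (Nat.pow 2 r)))) 0 then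
    bif Nat.ble (Nat.succ (Nat.mul n (Nat.pow 2 r))) (Nat.sub (Nat.pow 2 (Nat.succ b)) 1) then
      Nat.mod Q (Nat.sub (Nat.pow 2 (Nat.succ b)) 1)
    else Nat.mul n (Nat.pow 2 b)
  else Nat.mul n (Nat.pow 2 b)
def l1F (b r n W : ℕ) : ℕ := l1a b r n (on b n) (ab b (on b n) W)
/-- all coefficients divided by `2 ^ s` (floor) -/
def fl (b s O W : ℕ) : ℕ :=
  Nat.add (Nat.land (Nat.shiftRight W s) (Nat.mul O (Nat.sub (Nat.pow 2 (Nat.sub (Nat.succ b) s)) 1)))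
    (Nat.mul O (Nat.sub (Nat.pow 2 b) (Nat.pow 2 (Nat.sub b s))))
/-- real part of a product `(A + i B) (C + i D)`; `O1, O2, O3` are the offsets -/
def mre (O1 O2 O3 A B C D : ℕ) : ℕ :=
  Nat.sub (Nat.add (Nat.mul A C) (Nat.add (Nat.mul B O2) (Nat.add (Nat.mul O1 D) O3)))
    (Nat.add (Nat.mul A O2) (Nat.add (Nat.mul O1 C) (Nat.mul B D)))
/-- imaginary part of a product -/
def mim (O1 O2 O3 A B C D : ℕ) : ℕ :=
  Nat.sub (Nat.add (Nat.mul A D) (Nat.add (Nat.mul B C) (Nat.add (Nat.mul 2 (Nat.mul O1 O2)) O3)))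
    (Nat.add (Nat.mul O2 (Nat.add A B)) (Nat.mul O1 (Nat.add C D)))

/-! ## Bits -/

theorem land_cons {c x y : ℕ} (hx : x < 2 ^ c) (hy : y < 2 ^ c) (X Y : ℕ) :
    (x + 2 ^ c * X) &&& (y + 2 ^ c * Y) = (x &&& y) + 2 ^ c * (X &&& Y) := by
  have hxy : (x &&& y) < 2 ^ c := lt_of_le_of_lt Nat.and_le_left hx
  apply Nat.eq_of_testBit_eq
  intro j
  rw [Nat.testBit_and, add_comm x, add_comm y, add_comm (x &&& y), Nat.testBit_two_pow_mul_add _ hx,
    Nat.testBit_two_pow_mul_add _ hy, Nat.testBit_two_pow_mul_add _ hxy]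
  split_ifs
  · rw [Nat.testBit_and]
  · rw [Nat.testBit_and]

/-- the recursive form of `on` -/
def gs (B : ℕ) : ℕ → ℕ
  | 0 => 0
  | n + 1 => 1 + B * gs B n

theorem gs_mul (B n : ℕ) (hB : 1 ≤ B) : (B - 1) * gs B n = B ^ n - 1 := by
  obtain ⟨C, rfl⟩ : ∃ C, B = C + 1 := ⟨B - 1, by omega⟩
  have key : C * gs (C + 1) n + 1 = (C + 1) ^ n := by
    induction n with
    | zero => simp [gs]
    | succ n ih =>
      rw [gs, pow_succ, ← ih]
      ring
  simp only [Nat.add_sub_cancel]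
  omega

theorem on_eq (b n : ℕ) : on b n = gs (2 ^ (b + 1)) n := by
  have e : on b n = (2 ^ ((b + 1) * n) - 1) / (2 ^ (b + 1) - 1) := rfl
  have h1 : 1 ≤ 2 ^ (b + 1) := Nat.one_le_two_pow
  have h2 : 0 < 2 ^ (b + 1) - 1 := by
    have : 2 ≤ 2 ^ (b + 1) := by
      calc 2 = 2 ^ 1 := rfl
        _ ≤ 2 ^ (b + 1) := Nat.pow_le_pow_right (by norm_num) (by omega)
    omega
  rw [e, pow_mul, ← gs_mul _ n h1, Nat.mul_div_cancel_left _ h2]

/-! ## The `ℓ¹` norm -/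

theorem shift_and (b w W M : ℕ) (hw : w < 2 ^ (b + 1)) :
    ((w + 2 ^ (b + 1) * W) >>> b) &&& (1 + 2 ^ (b + 1) * M) = w / 2 ^ b + 2 ^ (b + 1) * ((W >>> b) &&& M) := by
  have e1 : (w + 2 ^ (b + 1) * W) >>> b = (w / 2 ^ b + 2 * (W % 2 ^ b)) + 2 ^ (b + 1) * (W >>> b) := by
    rw [Nat.shiftRight_eq_div_pow, Nat.shiftRight_eq_div_pow]
    have h1 : w + 2 ^ (b + 1) * W = w + 2 ^ b * (2 * W) := by rw [pow_succ]; ring
    rw [h1, Nat.add_mul_div_left _ _ (by positivity)]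
    have h2 := Nat.div_add_mod W (2 ^ b)
    have h3 : 2 ^ (b + 1) * (W / 2 ^ b) = 2 * (2 ^ b * (W / 2 ^ b)) := by rw [pow_succ]; ring
    rw [h3]
    omega
  have hw2 : w / 2 ^ b < 2 := by
    rw [Nat.div_lt_iff_lt_mul (by positivity)]
    rw [pow_succ] at hw
    linarith
  have hm : W % 2 ^ b < 2 ^ b := Nat.mod_lt _ (by positivity)
  have h4 : w / 2 ^ b + 2 * (W % 2 ^ b) < 2 ^ (b + 1) := by
    rw [pow_succ]; omega
  have h5 : 1 < 2 ^ (b + 1) := Nat.one_lt_two_pow (by omega)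
  rw [e1, land_cons h4 h5]
  rw [Nat.and_one_is_mod, Nat.add_mul_mod_self_left, Nat.mod_eq_of_lt hw2]

/-- absolute value of a digit -/
def dab (b w : ℕ) : ℕ := ((w : ℤ) - (2 ^ b : ℕ)).natAbs

theorem ab_zero (b W : ℕ) : ab b 0 W = 0 := by
  have h1 : sg b 0 W = 0 := by
    show (W >>> b) &&& 0 = 0
    simp
  show ab1 b 0 W (sg b 0 W) = 0
  rw [h1]
  show (W &&& (0 * (2 ^ b - 1))) + (2 ^ b * (0 - 0) - (W &&& ((0 - 0) * (2 ^ b - 1)))) = 0
  simp

theorem ar1 (q P U S : ℕ) (hq : q < 2) (h : P = U + S) : 1 + P - (q + S) = (1 - q) + U := by omega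

theorem ar2 (X Y Z m p : ℕ) (hm : m < p) (h : X ≤ Z) : 0 + Y + (p + Z - (m + X)) = p - m + (Y + (Z - X)) := by
  omega

theorem ar3 (X Y Z m : ℕ) : m + Y + (0 + Z - (0 + X)) = m + (Y + (Z - X)) := by omega

theorem sg_le (b O W : ℕ) : sg b O W ≤ O := Nat.and_le_right

theorem ab_succ (b n W : ℕ) : ab b (gs (2 ^ (b + 1)) (n + 1)) W =
    dab b (W % 2 ^ (b + 1)) + 2 ^ (b + 1) * ab b (gs (2 ^ (b + 1)) n) (W / 2 ^ (b + 1)) := by
  set B := 2 ^ (b + 1) with hB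
  set w := W % B with hw
  set V := W / B with hV
  have hwB : w < 2 ^ (b + 1) := Nat.mod_lt _ (by positivity)
  have hW : W = w + B * V := by
    rw [hw, hV]
    exact (Nat.mod_add_div W B).symm
  set O := gs B n with hO
  have hgs : gs B (n + 1) = 1 + B * O := rfl
  set S := sg b O V with hS
  have hSO : S ≤ O := sg_le _ _ _
  set q := w / 2 ^ b with hq
  have hq2 : q < 2 := by
    rw [hq, Nat.div_lt_iff_lt_mul (by positivity)]
    rw [pow_succ] at hwB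
    linarith
  have hsg : sg b (gs B (n + 1)) W = q + B * S := by
    show (W >>> b) &&& gs B (n + 1) = _
    rw [hgs, hW, hB, shift_and b w V O hwB]
    rfl
  have o1 : 2 ^ b - 1 < 2 ^ (b + 1) := by
    rw [pow_succ]
    have : 1 ≤ 2 ^ b := Nat.one_le_two_pow
    omega
  have hB2 : 2 ^ (b + 1) = 2 ^ b * 2 := pow_succ 2 b
  have ho : 1 ≤ 2 ^ b := Nat.one_le_two_pow
  show ab1 b _ W (sg b _ W) = _ + B * ab1 b O V S
  rw [hsg, hgs]
  show (W &&& ((q + B * S) * (2 ^ b - 1))) + (2 ^ b * (1 + B * O - (q + B * S)) -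
    (W &&& ((1 + B * O - (q + B * S)) * (2 ^ b - 1)))) = _ + B * ((V &&& (S * (2 ^ b - 1))) +
      (2 ^ b * (O - S) - (V &&& ((O - S) * (2 ^ b - 1)))))
  have hOS : 1 + B * O - (q + B * S) = (1 - q) + B * (O - S) := by
    have : B * O = B * (O - S) + B * S := by
      rw [← mul_add, Nat.sub_add_cancel hSO]
    exact ar1 q _ _ _ hq2 this
  rw [hOS]
  have e1 : (q + B * S) * (2 ^ b - 1) = q * (2 ^ b - 1) + 2 ^ (b + 1) * (S * (2 ^ b - 1)) := by
    rw [hB]; ring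
  have e2 : ((1 - q) + B * (O - S)) * (2 ^ b - 1) = (1 - q) * (2 ^ b - 1) + 2 ^ (b + 1) * ((O - S) * (2 ^ b - 1)) := by
    rw [hB]; ring
  have hq1 : q * (2 ^ b - 1) < 2 ^ (b + 1) := by
    refine lt_of_le_of_lt ?_ o1
    have : q ≤ 1 := Nat.lt_succ_iff.1 hq2
    calc q * (2 ^ b - 1) ≤ 1 * (2 ^ b - 1) := Nat.mul_le_mul_right _ this
      _ = _ := one_mul _
  have hq3 : (1 - q) * (2 ^ b - 1) < 2 ^ (b + 1) := by
    refine lt_of_le_of_lt ?_ o1
    calc (1 - q) * (2 ^ b - 1) ≤ 1 * (2 ^ b - 1) := Nat.mul_le_mul_right _ (Nat.sub_le 1 q)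
      _ = _ := one_mul _
  have f1 : (W &&& ((q + B * S) * (2 ^ b - 1))) = (w &&& (q * (2 ^ b - 1))) + B * (V &&& (S * (2 ^ b - 1))) := by
    rw [e1, hW, hB, land_cons hwB hq1]
  have f2 : (W &&& (((1 - q) + B * (O - S)) * (2 ^ b - 1))) =
      (w &&& ((1 - q) * (2 ^ b - 1))) + B * (V &&& ((O - S) * (2 ^ b - 1))) := by
    rw [e2, hW, hB, land_cons hwB hq3]
  rw [f1, f2]
  have hle : (V &&& ((O - S) * (2 ^ b - 1))) ≤ 2 ^ b * (O - S) := by
    refine Nat.and_le_right.trans ?_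
    rw [mul_comm]
    exact Nat.mul_le_mul_right _ (Nat.sub_le _ _)
  set x := V &&& ((O - S) * (2 ^ b - 1)) with hx
  set y := V &&& (S * (2 ^ b - 1)) with hy
  set z := 2 ^ b * (O - S) with hz
  have g1 : 2 ^ b * ((1 - q) + B * (O - S)) = 2 ^ b * (1 - q) + B * z := by
    rw [hz]; ring
  rw [g1]
  have g3 : B * (y + (z - x)) = B * y + (B * z - B * x) := by
    rw [mul_add, Nat.mul_sub]
  rw [g3]
  have g4 : B * x ≤ B * z := Nat.mul_le_mul_left _ hle
  have hmod : ∀ v, v &&& (2 ^ b - 1) = v % 2 ^ b := fun v => Nat.and_two_pow_sub_one_eq_mod v b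
  have hwd := Nat.div_add_mod w (2 ^ b)
  rcases Nat.le_one_iff_eq_zero_or_eq_one.1 (Nat.lt_succ_iff.1 hq2) with h | h
  · rw [h]
    simp only [Nat.zero_mul, Nat.and_zero, Nat.sub_zero, Nat.one_mul, Nat.mul_one]
    rw [hmod]
    rw [← hq, h, Nat.mul_zero, Nat.zero_add] at hwd
    have hlt : w % 2 ^ b < 2 ^ b := Nat.mod_lt _ (by positivity)
    have d : dab b w = 2 ^ b - w % 2 ^ b := by
      rw [hwd]
      rw [hwd] at hlt
      unfold dab
      omega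
    rw [d]
    exact ar2 _ _ _ _ _ hlt g4
  · rw [h]
    simp only [Nat.one_mul, Nat.sub_self, Nat.zero_mul, Nat.and_zero, Nat.mul_zero]
    rw [hmod]
    rw [← hq, h, Nat.mul_one] at hwd
    have d : dab b w = w % 2 ^ b := by
      unfold dab
      generalize w % 2 ^ b = m at *
      omega
    rw [d]
    exact ar3 _ _ _ _

theorem dab_le (b w : ℕ) (hw : w < 2 ^ (b + 1)) : dab b w ≤ 2 ^ b := by
  unfold dab
  rw [pow_succ] at hw
  omega

theorem mask_lt (b r x : ℕ) (hr : r ≤ b + 1) (hx : x < 2 ^ (b + 1)) (h : x &&& (2 ^ (b + 1) - 2 ^ r) = 0) :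
    x < 2 ^ r := by
  have e1 : 2 ^ (b + 1) - 2 ^ r = 0 + 2 ^ r * (2 ^ (b + 1 - r) - 1) := by
    rw [Nat.mul_sub, ← pow_add, Nat.add_sub_cancel' hr, mul_one, zero_add]
  have e2 : x = x % 2 ^ r + 2 ^ r * (x / 2 ^ r) := by
    have := Nat.div_add_mod x (2 ^ r)
    omega
  rw [e1] at h
  rw [e2, land_cons (Nat.mod_lt _ (by positivity)) (by positivity), Nat.and_zero, zero_add,
    Nat.and_two_pow_sub_one_eq_mod] at h
  have h3 : x / 2 ^ r < 2 ^ (b + 1 - r) := by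
    rw [Nat.div_lt_iff_lt_mul (by positivity), ← pow_add, Nat.sub_add_cancel hr]
    exact hx
  rw [Nat.mod_eq_of_lt h3] at h
  rcases Nat.mul_eq_zero.1 h with h4 | h4
  · exact absurd h4 (by positivity)
  · rcases Nat.div_eq_zero_iff.1 h4 with h5 | h5
    · exact absurd h5 (by positivity)
    · exact h5

theorem l1_lst_le (b n W : ℕ) : l1 (lst (2 ^ (b + 1)) (2 ^ b) n W) ≤ n * 2 ^ b := by
  induction n generalizing W with
  | zero => simp [lst, l1]
  | succ n ih =>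
    have h1 := ih (W / 2 ^ (b + 1))
    have h2 := dab_le b (W % 2 ^ (b + 1)) (Nat.mod_lt _ (by positivity))
    unfold dab at h2
    simp only [lst, l1]
    rw [add_mul, one_mul]
    omega

theorem ab_mod (b n W : ℕ) : ab b (gs (2 ^ (b + 1)) n) W ≡ l1 (lst (2 ^ (b + 1)) (2 ^ b) n W)
    [MOD (2 ^ (b + 1) - 1)] := by
  induction n generalizing W with
  | zero =>
    simp only [gs, lst, l1, ab_zero]
    rfl
  | succ n ih =>
    rw [ab_succ]
    simp only [lst, l1]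
    have h1 := ih (W / 2 ^ (b + 1))
    have h2 : 2 ^ (b + 1) ≡ 1 [MOD (2 ^ (b + 1) - 1)] := by
      have : 1 ≤ 2 ^ (b + 1) := Nat.one_le_two_pow
      have e : 2 ^ (b + 1) = 1 + (2 ^ (b + 1) - 1) := by omega
      conv_lhs => rw [e]
      exact Nat.add_modEq_right
    have h3 := h2.mul h1
    rw [one_mul] at h3
    exact (Nat.ModEq.refl _).add h3

theorem ab_lt (b r n W : ℕ) (hr : r ≤ b + 1)
    (h : ab b (gs (2 ^ (b + 1)) n) W &&& (gs (2 ^ (b + 1)) n * (2 ^ (b + 1) - 2 ^ r)) = 0) :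
    l1 (lst (2 ^ (b + 1)) (2 ^ b) n W) ≤ n * 2 ^ r := by
  induction n generalizing W with
  | zero => simp [lst, l1]
  | succ n ih =>
    have hd : dab b (W % 2 ^ (b + 1)) < 2 ^ (b + 1) := by
      refine lt_of_le_of_lt (dab_le b _ (Nat.mod_lt _ (by positivity))) ?_
      exact Nat.pow_lt_pow_right (by norm_num) (by omega)
    have hm : 2 ^ (b + 1) - 2 ^ r < 2 ^ (b + 1) := by
      have : 0 < 2 ^ r := by positivity
      have : 2 ^ r ≤ 2 ^ (b + 1) := Nat.pow_le_pow_right (by norm_num) hr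
      omega
    rw [ab_succ] at h
    have e1 : gs (2 ^ (b + 1)) (n + 1) * (2 ^ (b + 1) - 2 ^ r) =
        (2 ^ (b + 1) - 2 ^ r) + 2 ^ (b + 1) * (gs (2 ^ (b + 1)) n * (2 ^ (b + 1) - 2 ^ r)) := by
      rw [gs]; ring
    rw [e1, land_cons hd hm] at h
    have h1 : dab b (W % 2 ^ (b + 1)) &&& (2 ^ (b + 1) - 2 ^ r) = 0 := by omega
    have h2 : 2 ^ (b + 1) * (ab b (gs (2 ^ (b + 1)) n) (W / 2 ^ (b + 1)) &&&
        (gs (2 ^ (b + 1)) n * (2 ^ (b + 1) - 2 ^ r))) = 0 := by omega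
    have h3 := (Nat.mul_eq_zero.1 h2).resolve_left (by positivity)
    have h4 := ih _ h3
    have h5 := mask_lt b r _ hr hd h1
    unfold dab at h5
    simp only [lst, l1]
    rw [add_mul, one_mul]
    omega

/-- `l1F` is an upper bound of the `ℓ¹` norm -/
theorem l1F_le (b r n W : ℕ) (hr : r ≤ b + 1) : l1 (lst (2 ^ (b + 1)) (2 ^ b) n W) ≤ l1F b r n W := by
  have e : l1F b r n W =
    bif Nat.beq (ab b (on b n) W &&& (on b n * (2 ^ (b + 1) - 2 ^ r))) 0 then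
      bif Nat.ble (n * 2 ^ r + 1) (2 ^ (b + 1) - 1) then ab b (on b n) W % (2 ^ (b + 1) - 1)
      else n * 2 ^ b
    else n * 2 ^ b := rfl
  rw [e, on_eq]
  cases h1 : Nat.beq (ab b (gs (2 ^ (b + 1)) n) W &&& (gs (2 ^ (b + 1)) n * (2 ^ (b + 1) - 2 ^ r))) 0 with
  | false => exact l1_lst_le b n W
  | true =>
    cases h2 : Nat.ble (n * 2 ^ r + 1) (2 ^ (b + 1) - 1) with
    | false => exact l1_lst_le b n W
    | true =>
      have h3 := ab_lt b r n W hr (Nat.eq_of_beq_eq_true h1)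
      have h4 := Nat.le_of_ble_eq_true h2
      have h5 : l1 (lst (2 ^ (b + 1)) (2 ^ b) n W) < 2 ^ (b + 1) - 1 := by omega
      have h6 := ab_mod b n W
      unfold Nat.ModEq at h6
      rw [Nat.mod_eq_of_lt h5] at h6
      exact h6.ge

end Helper54.RC.Fast
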