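import Pool.Agent.Helper54.RC.Fast

/-!
# Fast kernel arithmetic for trigonometric polynomials

`FP`: a trigonometric polynomial with frequencies `-N .. N` and complex integer coefficients, stored in two natural
numbers. `V b z t` is its value. Operations: `mulF, addF, subF, smF, negF, flF, winF, padF, cF`, the bound `nrF`.
-/

set_option autoImplicit false

open Helper49.LT

namespace Helper54.RC.Fast

open Helper76.RC.TPoly

/-! ## Uniqueness of the digits -/

/-- the base -/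
abbrev BB (b : ℕ) : ℕ := 2 ^ (b + 1)
/-- the offset -/
abbrev oo (b : ℕ) : ℕ := 2 ^ b
/-- the list -/
abbrev ls (b n X : ℕ) : List ℤ := lst (2 ^ (b + 1)) (2 ^ b) n X

theorem evz_lst (b n X : ℕ) : evz ((2 ^ (b + 1) : ℕ) : ℤ) (ls b n X) =
    ((X % (2 ^ (b + 1)) ^ n : ℕ) : ℤ) - (2 ^ b : ℕ) * (gs (2 ^ (b + 1)) n : ℕ) := by
  induction n generalizing X with
  | zero => simp [lst, evz, gs, Nat.mod_one]
  | succ n ih =>
    simp only [lst, evz, gs, ih]
    have e1 : X % (2 ^ (b + 1)) ^ (n + 1) =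
        X % 2 ^ (b + 1) + 2 ^ (b + 1) * (X / 2 ^ (b + 1) % (2 ^ (b + 1)) ^ n) := by
      rw [pow_succ, mul_comm ((2 ^ (b + 1)) ^ n), Nat.mod_mul]
    rw [e1]
    push_cast
    ring

theorem evz_lst' (b n X : ℕ) (h : X < (2 ^ (b + 1)) ^ n) : (X : ℤ) = evz ((2 ^ (b + 1) : ℕ) : ℤ) (ls b n X) +
    (2 ^ b : ℕ) * (gs (2 ^ (b + 1)) n : ℕ) := by
  rw [evz_lst, Nat.mod_eq_of_lt h]
  ring

theorem length_ls (b n X : ℕ) : (ls b n X).length = n := by
  induction n generalizing X with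
  | zero => rfl
  | succ n ih => simp [lst, ih]

/-- digits from the value -/
theorem ls_of (b n : ℕ) (l : List ℤ) (hl : l.length = n) (hb : ∀ c ∈ l, -((2 ^ b : ℕ) : ℤ) ≤ c ∧ c < (2 ^ b : ℕ))
    (X : ℕ) (hX : (X : ℤ) = evz ((2 ^ (b + 1) : ℕ) : ℤ) l + (2 ^ b : ℕ) * (gs (2 ^ (b + 1)) n : ℕ)) :
    ls b n X = l ∧ X < (2 ^ (b + 1)) ^ n := by
  induction l generalizing n X with
  | nil =>
    simp only [List.length_nil] at hl
    subst hl
    simp only [evz, gs, Nat.cast_zero, mul_zero, add_zero] at hX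
    have : X = 0 := by exact_mod_cast hX
    subst this
    exact ⟨rfl, by norm_num⟩
  | cons a l ih =>
    simp only [List.length_cons] at hl
    subst hl
    obtain ⟨h1, h2⟩ := hb a List.mem_cons_self
    simp only [evz, gs] at hX
    have hB : ((2 ^ (b + 1) : ℕ) : ℤ) = 2 * (2 ^ b : ℕ) := by push_cast; ring
    set B : ℕ := 2 ^ (b + 1) with hBd
    set o : ℕ := 2 ^ b with hod
    have hB0 : (0 : ℤ) < B := by rw [hBd]; positivity
    have e1 : (X : ℤ) = (a + o) + B * (evz (B : ℤ) l + o * (gs B l.length : ℕ)) := by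
      rw [hX]
      push_cast
      ring
    have m1 : (X : ℤ) % B = a + o := by
      rw [e1, Int.add_mul_emod_self_left, Int.emod_eq_of_lt (by omega) (by omega)]
    have d1 : (X : ℤ) / B = evz (B : ℤ) l + o * (gs B l.length : ℕ) := by
      rw [e1, Int.add_mul_ediv_left _ _ hB0.ne', Int.ediv_eq_zero_of_lt (by omega) (by omega), zero_add]
    have m2 : ((X % B : ℕ) : ℤ) = a + o := by rw [← m1]; push_cast; rfl
    have d2 : ((X / B : ℕ) : ℤ) = evz (B : ℤ) l + o * (gs B l.length : ℕ) := by rw [← d1]; push_cast; rfl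
    obtain ⟨i1, i2⟩ := ih l.length rfl (fun c hc => hb c (List.mem_cons_of_mem _ hc)) (X / B) d2
    constructor
    · show (((X % B : ℕ) : ℤ) - (o : ℤ)) :: lst B o l.length (X / B) = a :: l
      rw [m2]
      congr 1
      ring
    · rw [pow_succ]
      have h3 := Nat.div_add_mod X B
      have h4 : X % B < B := Nat.mod_lt _ (by positivity)
      have h5 : X / B + 1 ≤ B ^ l.length := i2
      calc X = B * (X / B) + X % B := h3.symm
        _ < B * (X / B) + B := by omega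
        _ = (X / B + 1) * B := by ring
        _ ≤ B ^ l.length * B := Nat.mul_le_mul_right _ h5

theorem evz_nonneg (b : ℕ) (l : List ℤ) (hb : ∀ c ∈ l, -((2 ^ b : ℕ) : ℤ) ≤ c ∧ c < (2 ^ b : ℕ)) :
    0 ≤ evz ((2 ^ (b + 1) : ℕ) : ℤ) l + (2 ^ b : ℕ) * (gs (2 ^ (b + 1)) l.length : ℕ) := by
  induction l with
  | nil => simp [evz, gs]
  | cons a l ih =>
    have h1 := hb a List.mem_cons_self
    have h2 := ih (fun c hc => hb c (List.mem_cons_of_mem _ hc))
    simp only [evz, gs, List.length_cons]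
    have e1 : a + ((2 ^ (b + 1) : ℕ) : ℤ) * evz ((2 ^ (b + 1) : ℕ) : ℤ) l +
        (2 ^ b : ℕ) * ((1 + 2 ^ (b + 1) * gs (2 ^ (b + 1)) l.length : ℕ) : ℤ) =
        (a + (2 ^ b : ℕ)) + ((2 ^ (b + 1) : ℕ) : ℤ) * (evz ((2 ^ (b + 1) : ℕ) : ℤ) l +
          (2 ^ b : ℕ) * (gs (2 ^ (b + 1)) l.length : ℕ)) := by
      push_cast
      ring
    rw [e1]
    have h3 : (0 : ℤ) ≤ ((2 ^ (b + 1) : ℕ) : ℤ) := Nat.cast_nonneg _
    have := mul_nonneg h3 h2
    linarith [h1.1]

/-- digits from the difference of two natural numbers -/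
theorem ls_sub (b n : ℕ) (l : List ℤ) (hl : l.length = n) (hb : ∀ c ∈ l, -((2 ^ b : ℕ) : ℤ) ≤ c ∧ c < (2 ^ b : ℕ))
    (P Q : ℕ) (hX : (P : ℤ) - Q = evz ((2 ^ (b + 1) : ℕ) : ℤ) l + (2 ^ b : ℕ) * (gs (2 ^ (b + 1)) n : ℕ)) :
    ls b n (P - Q) = l ∧ P - Q < (2 ^ (b + 1)) ^ n := by
  have h0 := evz_nonneg b l hb
  rw [hl] at h0
  refine ls_of b n l hl hb (P - Q) ?_
  omega

/-! ## Trigonometric polynomials -/

/-- frequencies `-N .. N`, `2 N + 1` digits -/
structure FP where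
  N : ℕ
  x : ℕ
  y : ℕ

/-- the number of coefficients -/
def len (N : ℕ) : ℕ := Nat.succ (Nat.mul 2 N)

theorem len_eq (N : ℕ) : len N = 2 * N + 1 := rfl

/-- the same polynomial in the format of helper76 -/
def tp (b : ℕ) (z : FP) : TP := TP.lit b (len z.N) z.x z.y

/-- value -/
noncomputable def V (b : ℕ) (z : FP) (t : ℝ) : ℂ := T z.N (tp b z) t

/-- upper bound of `∑ |re| + |im|` (exact if all coefficients are less than `2 ^ r`) -/
def nrF (b r : ℕ) (z : FP) : ℕ := Nat.add (l1F b r (len z.N) z.x) (l1F b r (len z.N) z.y)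

/-- no superfluous digits -/
def wf (b : ℕ) (z : FP) : Bool :=
  bif Nat.ble (Nat.succ z.x) (Nat.pow (Nat.pow 2 (Nat.succ b)) (len z.N)) then
    Nat.ble (Nat.succ z.y) (Nat.pow (Nat.pow 2 (Nat.succ b)) (len z.N)) else false

theorem wf_iff (b : ℕ) (z : FP) : wf b z = true ↔ z.x < (2 ^ (b + 1)) ^ (len z.N) ∧ z.y < (2 ^ (b + 1)) ^ (len z.N) := by
  unfold wf
  have e1 : Nat.pow (Nat.pow 2 (Nat.succ b)) (len z.N) = (2 ^ (b + 1)) ^ (len z.N) := rfl
  rw [e1]
  constructor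
  · intro h
    cases h1 : Nat.ble (Nat.succ z.x) ((2 ^ (b + 1)) ^ (len z.N)) with
    | false => rw [h1] at h; simp at h
    | true =>
      rw [h1] at h
      exact ⟨Nat.le_of_ble_eq_true h1, Nat.le_of_ble_eq_true h⟩
  · rintro ⟨h1, h2⟩
    rw [Nat.ble_eq_true_of_le h1]
    exact Nat.ble_eq_true_of_le h2

theorem nrm_le (b r : ℕ) (hr : r ≤ b + 1) (z : FP) : (tp b z).nrm ≤ nrF b r z :=
  Nat.add_le_add (l1F_le b r _ _ hr) (l1F_le b r _ _ hr)

theorem norm_V_le (b r : ℕ) (hr : r ≤ b + 1) (z : FP) (t : ℝ) : ‖V b z t‖ ≤ nrF b r z :=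
  (norm_T_le _ _ t).trans (by exact_mod_cast nrm_le b r hr z)

/-! ## Products -/

/-- exact product, lists -/
def TPmul (p q : TP) : TP :=
  ⟨addL (conv p.re q.re) (negL (conv p.im q.im)), addL (conv p.re q.im) (conv p.im q.re)⟩

theorem ev_TPmul (x : ℂ) (p q : TP) : (TPmul p q).ev x = p.ev x * q.ev x := by
  simp only [TP.ev, TPmul, evr_addL, evr_negL, evr_conv]
  have hI : Complex.I * Complex.I = -1 := Complex.I_mul_I
  linear_combination (-(evr x p.im * evr x q.im)) * hI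

theorem T_TPmul (N M : ℕ) (p q : TP) (t : ℝ) : T (N + M) (TPmul p q) t = T N p t * T M q t := by
  unfold T
  rw [ev_TPmul]
  have : ee (-(((N + M : ℕ) : ℝ) * t)) = ee (-((N : ℝ) * t)) * ee (-((M : ℝ) * t)) := by
    rw [← ee_add]
    congr 1
    push_cast
    ring
  rw [this]
  ring

theorem length_negL (l : List ℤ) : (negL l).length = l.length := by simp [negL]

theorem Bd_negL {b : ℕ} {l : List ℤ} (h : Bd b l) : Bd b (negL l) := by
  intro c hc
  unfold negL at hc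
  obtain ⟨d, hd, rfl⟩ := List.mem_map.1 hc
  rw [Int.natAbs_neg]
  exact h d hd

theorem Bd_range {b c : ℕ} {l : List ℤ} (h : Bd c l) (hc : c < 2 ^ b) :
    ∀ x ∈ l, -((2 ^ b : ℕ) : ℤ) ≤ x ∧ x < (2 ^ b : ℕ) := by
  intro x hx
  have := h x hx
  omega

theorem evz_addL (B : ℤ) (l m : List ℤ) : evz B (addL l m) = evz B l + evz B m := by
  have := evr_addL B l m
  simp only [evz_eq]
  exact this

theorem evz_negL (B : ℤ) (l : List ℤ) : evz B (negL l) = -evz B l := by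
  have := evr_negL B l
  simp only [evz_eq]
  exact this

theorem evz_conv (B : ℤ) (l m : List ℤ) : evz B (conv l m) = evz B l * evz B m := by
  have := evr_conv B l m
  simp only [evz_eq]
  exact this

/-- real and imaginary parts of a product -/
theorem lit_mul (b n1 n2 A B C D : ℕ) (h1 : 1 ≤ n1) (h2 : 1 ≤ n2) (hA : A < (2 ^ (b + 1)) ^ n1)
    (hB : B < (2 ^ (b + 1)) ^ n1) (hC : C < (2 ^ (b + 1)) ^ n2) (hD : D < (2 ^ (b + 1)) ^ n2)
    (h : (TP.lit b n1 A B).nrm * (TP.lit b n2 C D).nrm < 2 ^ b) :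
    TP.lit b (n1 + n2 - 1) (mre (of b n1) (of b n2) (of b (n1 + n2 - 1)) A B C D)
      (mim (of b n1) (of b n2) (of b (n1 + n2 - 1)) A B C D) = TPmul (TP.lit b n1 A B) (TP.lit b n2 C D) ∧
    mre (of b n1) (of b n2) (of b (n1 + n2 - 1)) A B C D < (2 ^ (b + 1)) ^ (n1 + n2 - 1) ∧
    mim (of b n1) (of b n2) (of b (n1 + n2 - 1)) A B C D < (2 ^ (b + 1)) ^ (n1 + n2 - 1) := by
  have a1 := evz_lst' b n1 A hA
  have a2 := evz_lst' b n1 B hB
  have a3 := evz_lst' b n2 C hC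
  have a4 := evz_lst' b n2 D hD
  have l1' := length_ls b n1 A
  have l2' := length_ls b n1 B
  have l3' := length_ls b n2 C
  have l4' := length_ls b n2 D
  have hof : ∀ n, of b n = 2 ^ b * gs (2 ^ (b + 1)) n := by
    intro n
    show 2 ^ b * on b n = _
    rw [on_eq]
  have hne : ∀ l : List ℤ, ∀ n, l.length = n → 1 ≤ n → l ≠ [] := by
    intro l n hl hn h0
    rw [h0] at hl
    simp at hl
    omega
  have e1 : TP.lit b n1 A B = ⟨ls b n1 A, ls b n1 B⟩ := rfl
  have e2 : TP.lit b n2 C D = ⟨ls b n2 C, ls b n2 D⟩ := rfl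
  rw [e1, e2] at h ⊢
  simp only [TP.nrm] at h
  set la := ls b n1 A
  set lb := ls b n1 B
  set lc := ls b n2 C
  set ld := ls b n2 D
  have c1 : (conv la lc).length = n1 + n2 - 1 := by
    rw [length_conv _ _ (hne _ _ l1' h1) (hne _ _ l3' h2), l1', l3']
  have c2 : (conv lb ld).length = n1 + n2 - 1 := by
    rw [length_conv _ _ (hne _ _ l2' h1) (hne _ _ l4' h2), l2', l4']
  have c3 : (conv la ld).length = n1 + n2 - 1 := by
    rw [length_conv _ _ (hne _ _ l1' h1) (hne _ _ l4' h2), l1', l4']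
  have c4 : (conv lb lc).length = n1 + n2 - 1 := by
    rw [length_conv _ _ (hne _ _ l2' h1) (hne _ _ l3' h2), l2', l3']
  have b1 := Bd_conv la lc (Bd_l1 lc)
  have b2 := Bd_conv lb ld (Bd_l1 ld)
  have b3 := Bd_conv la ld (Bd_l1 ld)
  have b4 := Bd_conv lb lc (Bd_l1 lc)
  have q1 : l1 la * l1 lc + l1 lb * l1 ld < 2 ^ b := by
    refine lt_of_le_of_lt ?_ h
    have : (l1 la + l1 lb) * (l1 lc + l1 ld) = (l1 la * l1 lc + l1 lb * l1 ld) + (l1 la * l1 ld + l1 lb * l1 lc) := by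
      ring
    omega
  have q2 : l1 la * l1 ld + l1 lb * l1 lc < 2 ^ b := by
    refine lt_of_le_of_lt ?_ h
    have : (l1 la + l1 lb) * (l1 lc + l1 ld) = (l1 la * l1 lc + l1 lb * l1 ld) + (l1 la * l1 ld + l1 lb * l1 lc) := by
      ring
    omega
  have r1 := Bd_range (Bd_addL _ _ b1 (Bd_negL b2)) q1
  have r2 := Bd_range (Bd_addL _ _ b3 b4) q2
  have n1' : (addL (conv la lc) (negL (conv lb ld))).length = n1 + n2 - 1 := by
    rw [length_addL, length_negL, c1, c2, max_self]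
  have n2' : (addL (conv la ld) (conv lb lc)).length = n1 + n2 - 1 := by
    rw [length_addL, c3, c4, max_self]
  obtain ⟨s1, s2⟩ := ls_sub b (n1 + n2 - 1) _ n1' r1
    (A * C + (B * of b n2 + (of b n1 * D + of b (n1 + n2 - 1)))) (A * of b n2 + (of b n1 * C + B * D)) (by
      rw [evz_addL, evz_negL, evz_conv, evz_conv]
      push_cast
      rw [a1, a2, a3, a4, hof, hof, hof]
      push_cast
      ring)
  obtain ⟨s3, s4⟩ := ls_sub b (n1 + n2 - 1) _ n2' r2
    (A * D + (B * C + (2 * (of b n1 * of b n2) + of b (n1 + n2 - 1)))) (of b n2 * (A + B) + of b n1 * (C + D)) (by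
      rw [evz_addL, evz_conv, evz_conv]
      push_cast
      rw [a1, a2, a3, a4, hof, hof, hof]
      push_cast
      ring)
  refine ⟨?_, s2, s4⟩
  show (⟨ls b (n1 + n2 - 1) (mre (of b n1) (of b n2) (of b (n1 + n2 - 1)) A B C D),
    ls b (n1 + n2 - 1) (mim (of b n1) (of b n2) (of b (n1 + n2 - 1)) A B C D)⟩ : TP) = _
  have t1 : mre (of b n1) (of b n2) (of b (n1 + n2 - 1)) A B C D =
    (A * C + (B * of b n2 + (of b n1 * D + of b (n1 + n2 - 1)))) - (A * of b n2 + (of b n1 * C + B * D)) := rfl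
  have t2 : mim (of b n1) (of b n2) (of b (n1 + n2 - 1)) A B C D =
    (A * D + (B * C + (2 * (of b n1 * of b n2) + of b (n1 + n2 - 1)))) - (of b n2 * (A + B) + of b n1 * (C + D)) := rfl
  rw [t1, t2, s1, s3]
  rfl

/-- the exact product -/
def mulF (b : ℕ) (z w : FP) : FP :=
  ⟨Nat.add z.N w.N,
    mre (of b (len z.N)) (of b (len w.N)) (of b (len (Nat.add z.N w.N))) z.x z.y w.x w.y,
    mim (of b (len z.N)) (of b (len w.N)) (of b (len (Nat.add z.N w.N))) z.x z.y w.x w.y⟩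

/-- no overflow in a product -/
def okm (b r : ℕ) (z w : FP) : Bool := Nat.ble (Nat.succ (Nat.mul (nrF b r z) (nrF b r w))) (Nat.pow 2 b)

theorem mulF_sound (b r : ℕ) (hr : r ≤ b + 1) (z w : FP) (hz : wf b z = true) (hw : wf b w = true)
    (h : okm b r z w = true) : wf b (mulF b z w) = true ∧ ∀ t, V b (mulF b z w) t = V b z t * V b w t := by
  rw [wf_iff] at hz hw
  have h1 : nrF b r z * nrF b r w < 2 ^ b := Nat.le_of_ble_eq_true h
  have h2 : (TP.lit b (len z.N) z.x z.y).nrm * (TP.lit b (len w.N) w.x w.y).nrm < 2 ^ b :=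
    lt_of_le_of_lt (Nat.mul_le_mul (nrm_le b r hr z) (nrm_le b r hr w)) h1
  have e1 : len z.N + len w.N - 1 = len (Nat.add z.N w.N) := by
    rw [len_eq, len_eq, len_eq]
    show 2 * z.N + 1 + (2 * w.N + 1) - 1 = 2 * (z.N + w.N) + 1
    omega
  obtain ⟨k1, k2, k3⟩ := lit_mul b (len z.N) (len w.N) z.x z.y w.x w.y (by rw [len_eq]; omega)
    (by rw [len_eq]; omega) hz.1 hz.2 hw.1 hw.2 h2
  rw [e1] at k1 k2 k3
  constructor
  · rw [wf_iff]
    exact ⟨k2, k3⟩
  · intro t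
    unfold V tp
    have e2 : (mulF b z w).N = z.N + w.N := rfl
    have e3 : TP.lit b (len (mulF b z w).N) (mulF b z w).x (mulF b z w).y =
      TPmul (TP.lit b (len z.N) z.x z.y) (TP.lit b (len w.N) w.x w.y) := k1
    rw [e3, e2, T_TPmul]

end Helper54.RC.Fast
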