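import Pool.Agent.Helper54.RC.Fast2

/-!
# Fast kernel arithmetic for trigonometric polynomials, II: linear operations, rounding, windows

All the operations are total; `wf` and the norm conditions are needed for the meaning only.
-/

set_option autoImplicit false

open Helper49.LT

namespace Helper54.RC.Fast

open Helper76.RC.TPoly

/-! ## Linear operations -/

theorem of_eq (b n : ℕ) : of b n = 2 ^ b * gs (2 ^ (b + 1)) n := by
  show 2 ^ b * on b n = _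
  rw [on_eq]

theorem T_mk_congr (N : ℕ) {p q : TP} (h : p = q) (t : ℝ) : T N p t = T N q t := by rw [h]

/-- sum (the same `N`) -/
def addF (b : ℕ) (z w : FP) : FP :=
  ⟨z.N, Nat.sub (Nat.add z.x w.x) (of b (len z.N)), Nat.sub (Nat.add z.y w.y) (of b (len z.N))⟩
/-- difference (the same `N`) -/
def subF (b : ℕ) (z w : FP) : FP :=
  ⟨z.N, Nat.sub (Nat.add z.x (of b (len z.N))) w.x, Nat.sub (Nat.add z.y (of b (len z.N))) w.y⟩
/-- negative -/
def negF (b : ℕ) (z : FP) : FP :=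
  ⟨z.N, Nat.sub (Nat.mul 2 (of b (len z.N))) z.x, Nat.sub (Nat.mul 2 (of b (len z.N))) z.y⟩
/-- multiplication by a natural number -/
def smF (b c : ℕ) (z : FP) : FP :=
  ⟨z.N, Nat.sub (Nat.add (Nat.mul c z.x) (of b (len z.N))) (Nat.mul c (of b (len z.N))),
    Nat.sub (Nat.add (Nat.mul c z.y) (of b (len z.N))) (Nat.mul c (of b (len z.N)))⟩
/-- multiplication by `i` -/
def mulI (b : ℕ) (z : FP) : FP := ⟨z.N, Nat.sub (Nat.mul 2 (of b (len z.N))) z.y, z.x⟩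

/-- the condition for sums and differences -/
def oka (b r : ℕ) (z w : FP) : Bool :=
  bif Nat.beq z.N w.N then Nat.ble (Nat.succ (Nat.add (nrF b r z) (nrF b r w))) (Nat.pow 2 b) else false

theorem l1_addL_bd (l m : List ℤ) (b : ℕ) (h : l1 l + l1 m < 2 ^ b) :
    ∀ x ∈ addL l m, -((2 ^ b : ℕ) : ℤ) ≤ x ∧ x < (2 ^ b : ℕ) :=
  Bd_range (Bd_addL _ _ (Bd_l1 l) (Bd_l1 m)) h

theorem l1_negL (l : List ℤ) : l1 (negL l) = l1 l := by
  induction l with
  | nil => rfl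
  | cons a l ih =>
    have : negL (a :: l) = (-a) :: negL l := rfl
    rw [this]
    simp [l1, ih]

theorem oka_iff (b r : ℕ) (z w : FP) (h : oka b r z w = true) : z.N = w.N ∧ nrF b r z + nrF b r w < 2 ^ b := by
  unfold oka at h
  cases h1 : Nat.beq z.N w.N with
  | false => rw [h1] at h; simp at h
  | true =>
    rw [h1] at h
    exact ⟨Nat.eq_of_beq_eq_true h1, Nat.le_of_ble_eq_true h⟩

/-- a linear operation in two lists -/
theorem ls_add (b n X W : ℕ) (hX : X < (2 ^ (b + 1)) ^ n) (hW : W < (2 ^ (b + 1)) ^ n)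
    (h : l1 (ls b n X) + l1 (ls b n W) < 2 ^ b) :
    ls b n (X + W - of b n) = addL (ls b n X) (ls b n W) ∧ X + W - of b n < (2 ^ (b + 1)) ^ n := by
  have a1 := evz_lst' b n X hX
  have a2 := evz_lst' b n W hW
  refine ls_sub b n _ ?_ (l1_addL_bd _ _ b h) _ _ ?_
  · rw [length_addL, length_ls, length_ls, max_self]
  · rw [evz_addL, of_eq]
    push_cast
    rw [a1, a2]
    push_cast
    ring

theorem ls_subt (b n X W : ℕ) (hX : X < (2 ^ (b + 1)) ^ n) (hW : W < (2 ^ (b + 1)) ^ n)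
    (h : l1 (ls b n X) + l1 (ls b n W) < 2 ^ b) :
    ls b n (X + of b n - W) = addL (ls b n X) (negL (ls b n W)) ∧ X + of b n - W < (2 ^ (b + 1)) ^ n := by
  have a1 := evz_lst' b n X hX
  have a2 := evz_lst' b n W hW
  refine ls_sub b n _ ?_ (l1_addL_bd _ _ b (by rw [l1_negL]; exact h)) _ _ ?_
  · rw [length_addL, length_negL, length_ls, length_ls, max_self]
  · rw [evz_addL, evz_negL, of_eq]
    push_cast
    rw [a1, a2]
    push_cast
    ring

theorem ls_neg (b n X : ℕ) (hX : X < (2 ^ (b + 1)) ^ n) (h : l1 (ls b n X) < 2 ^ b) :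
    ls b n (2 * of b n - X) = negL (ls b n X) ∧ 2 * of b n - X < (2 ^ (b + 1)) ^ n := by
  have a1 := evz_lst' b n X hX
  refine ls_sub b n _ ?_ (Bd_range (Bd_negL (Bd_l1 _)) h) _ _ ?_
  · rw [length_negL, length_ls]
  · rw [evz_negL, of_eq]
    push_cast
    rw [a1]
    push_cast
    ring

theorem Bd_smL {b : ℕ} (c : ℕ) {l : List ℤ} (h : Bd b l) : Bd (c * b) (smL c l) := by
  intro x hx
  unfold smL at hx
  obtain ⟨d, hd, rfl⟩ := List.mem_map.1 hx
  rw [Int.natAbs_mul]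
  exact Nat.mul_le_mul (by simp) (h d hd)

theorem evz_smL (B : ℤ) (c : ℤ) (l : List ℤ) : evz B (smL c l) = c * evz B l := by
  have := evr_map_mul B c l
  simp only [evz_eq, smL]
  exact this

theorem ls_sm (b n c X : ℕ) (hX : X < (2 ^ (b + 1)) ^ n) (h : c * l1 (ls b n X) < 2 ^ b) :
    ls b n (c * X + of b n - c * of b n) = smL c (ls b n X) ∧ c * X + of b n - c * of b n < (2 ^ (b + 1)) ^ n := by
  have a1 := evz_lst' b n X hX
  refine ls_sub b n _ ?_ (Bd_range (Bd_smL c (Bd_l1 _)) h) _ _ ?_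
  · unfold smL; rw [List.length_map, length_ls]
  · rw [evz_smL, of_eq]
    push_cast
    rw [a1]
    push_cast
    ring

theorem wf_mk (b N x y : ℕ) (hx : x < (2 ^ (b + 1)) ^ (len N)) (hy : y < (2 ^ (b + 1)) ^ (len N)) :
    wf b ⟨N, x, y⟩ = true := (wf_iff b ⟨N, x, y⟩).2 ⟨hx, hy⟩

theorem nr_parts (b r : ℕ) (hr : r ≤ b + 1) (z : FP) :
    l1 (ls b (len z.N) z.x) + l1 (ls b (len z.N) z.y) ≤ nrF b r z := nrm_le b r hr z

theorem addF_sound (b r : ℕ) (hr : r ≤ b + 1) (z w : FP) (hz : wf b z = true) (hw : wf b w = true)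
    (h : oka b r z w = true) : wf b (addF b z w) = true ∧ ∀ t, V b (addF b z w) t = V b z t + V b w t := by
  obtain ⟨hN, h⟩ := oka_iff b r z w h
  rw [wf_iff] at hz hw
  rw [← hN] at hw
  have p1 := nr_parts b r hr z
  have p2 := nr_parts b r hr w
  rw [← hN] at p2
  obtain ⟨k1, k2⟩ := ls_add b (len z.N) z.x w.x hz.1 hw.1 (by omega)
  obtain ⟨k3, k4⟩ := ls_add b (len z.N) z.y w.y hz.2 hw.2 (by omega)
  refine ⟨wf_mk b _ _ _ k2 k4, fun t => ?_⟩
  unfold V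
  have e : tp b (addF b z w) = (tp b z).add (tp b w) := by
    show (⟨ls b (len z.N) (z.x + w.x - of b (len z.N)), ls b (len z.N) (z.y + w.y - of b (len z.N))⟩ : TP) = _
    rw [k1, k3]
    unfold tp TP.lit TP.add
    rw [← hN]
  rw [e, T_add, ← hN]
  rfl

theorem subF_sound (b r : ℕ) (hr : r ≤ b + 1) (z w : FP) (hz : wf b z = true) (hw : wf b w = true)
    (h : oka b r z w = true) : wf b (subF b z w) = true ∧ ∀ t, V b (subF b z w) t = V b z t - V b w t := by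
  obtain ⟨hN, h⟩ := oka_iff b r z w h
  rw [wf_iff] at hz hw
  rw [← hN] at hw
  have p1 := nr_parts b r hr z
  have p2 := nr_parts b r hr w
  rw [← hN] at p2
  obtain ⟨k1, k2⟩ := ls_subt b (len z.N) z.x w.x hz.1 hw.1 (by omega)
  obtain ⟨k3, k4⟩ := ls_subt b (len z.N) z.y w.y hz.2 hw.2 (by omega)
  refine ⟨wf_mk b _ _ _ k2 k4, fun t => ?_⟩
  unfold V
  have e : tp b (subF b z w) = (tp b z).sub (tp b w) := by
    show (⟨ls b (len z.N) (z.x + of b (len z.N) - w.x), ls b (len z.N) (z.y + of b (len z.N) - w.y)⟩ : TP) = _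
    rw [k1, k3]
    unfold tp TP.lit TP.sub
    rw [← hN]
  rw [e, T_sub, ← hN]
  rfl

/-- the condition for a negative -/
def okn (b r : ℕ) (z : FP) : Bool := Nat.ble (Nat.succ (nrF b r z)) (Nat.pow 2 b)

theorem negF_sound (b r : ℕ) (hr : r ≤ b + 1) (z : FP) (hz : wf b z = true) (h : okn b r z = true) :
    wf b (negF b z) = true ∧ ∀ t, V b (negF b z) t = -V b z t := by
  have h : nrF b r z < 2 ^ b := Nat.le_of_ble_eq_true h
  rw [wf_iff] at hz
  have p1 := nr_parts b r hr z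
  obtain ⟨k1, k2⟩ := ls_neg b (len z.N) z.x hz.1 (by omega)
  obtain ⟨k3, k4⟩ := ls_neg b (len z.N) z.y hz.2 (by omega)
  refine ⟨wf_mk b _ _ _ k2 k4, fun t => ?_⟩
  unfold V
  have e : tp b (negF b z) = (tp b z).neg := by
    show (⟨ls b (len z.N) (2 * of b (len z.N) - z.x), ls b (len z.N) (2 * of b (len z.N) - z.y)⟩ : TP) = _
    rw [k1, k3]
    rfl
  rw [e]
  exact T_neg z.N (tp b z) t

theorem mulI_sound (b r : ℕ) (hr : r ≤ b + 1) (z : FP) (hz : wf b z = true) (h : okn b r z = true) :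
    wf b (mulI b z) = true ∧ ∀ t, V b (mulI b z) t = Complex.I * V b z t := by
  have h : nrF b r z < 2 ^ b := Nat.le_of_ble_eq_true h
  rw [wf_iff] at hz
  have p1 := nr_parts b r hr z
  obtain ⟨k3, k4⟩ := ls_neg b (len z.N) z.y hz.2 (by omega)
  refine ⟨wf_mk b _ _ _ k4 hz.1, fun t => ?_⟩
  unfold V
  have e : tp b (mulI b z) = ⟨negL (ls b (len z.N) z.y), ls b (len z.N) z.x⟩ := by
    show (⟨ls b (len z.N) (2 * of b (len z.N) - z.y), ls b (len z.N) z.x⟩ : TP) = _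
    rw [k3]
  have e2 : (mulI b z).N = z.N := rfl
  rw [e, e2]
  unfold T TP.ev
  have e3 : tp b z = ⟨ls b (len z.N) z.x, ls b (len z.N) z.y⟩ := rfl
  rw [e3]
  simp only [evr_negL]
  have hI : Complex.I * Complex.I = -1 := Complex.I_mul_I
  linear_combination (-(ee (-((z.N : ℝ) * t)) * evr (ee t) (ls b (len z.N) z.y))) * hI

/-- the condition for a multiple -/
def oks (b r c : ℕ) (z : FP) : Bool := Nat.ble (Nat.succ (Nat.mul c (nrF b r z))) (Nat.pow 2 b)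

theorem smF_sound (b r : ℕ) (hr : r ≤ b + 1) (c : ℕ) (z : FP) (hz : wf b z = true) (h : oks b r c z = true) :
    wf b (smF b c z) = true ∧ ∀ t, V b (smF b c z) t = c * V b z t := by
  have h : c * nrF b r z < 2 ^ b := Nat.le_of_ble_eq_true h
  rw [wf_iff] at hz
  have p1 := nr_parts b r hr z
  have p2 : c * (l1 (ls b (len z.N) z.x) + l1 (ls b (len z.N) z.y)) < 2 ^ b :=
    lt_of_le_of_lt (Nat.mul_le_mul_left _ p1) h
  rw [mul_add] at p2
  obtain ⟨k1, k2⟩ := ls_sm b (len z.N) c z.x hz.1 (by omega)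
  obtain ⟨k3, k4⟩ := ls_sm b (len z.N) c z.y hz.2 (by omega)
  refine ⟨wf_mk b _ _ _ k2 k4, fun t => ?_⟩
  unfold V
  have e : tp b (smF b c z) = smT c (tp b z) := by
    show (⟨ls b (len z.N) (c * z.x + of b (len z.N) - c * of b (len z.N)),
      ls b (len z.N) (c * z.y + of b (len z.N) - c * of b (len z.N))⟩ : TP) = _
    rw [k1, k3]
    rfl
  have e2 : (smF b c z).N = z.N := rfl
  rw [e, e2, T_smT]
  push_cast
  rfl

/-! ## Rounding -/

/-- all coefficients divided by `2 ^ s` -/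
def flF (b s : ℕ) (z : FP) : FP := ⟨z.N, fl b s (on b (len z.N)) z.x, fl b s (on b (len z.N)) z.y⟩

theorem fl_zero (b s W : ℕ) : fl b s 0 W = 0 := by
  show (W >>> s &&& (0 * (2 ^ (b + 1 - s) - 1))) + 0 * (2 ^ b - 2 ^ (b - s)) = 0
  simp

theorem fl_succ (b s n W : ℕ) (hs : s ≤ b) : fl b s (gs (2 ^ (b + 1)) (n + 1)) W =
    (W % 2 ^ (b + 1) / 2 ^ s + (2 ^ b - 2 ^ (b - s))) + 2 ^ (b + 1) * fl b s (gs (2 ^ (b + 1)) n) (W / 2 ^ (b + 1)) := by
  set w := W % 2 ^ (b + 1) with hw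
  set U := W / 2 ^ (b + 1) with hU
  have hwB : w < 2 ^ (b + 1) := Nat.mod_lt _ (by positivity)
  have hW : W = w + 2 ^ (b + 1) * U := by
    rw [hw, hU]
    exact (Nat.mod_add_div W (2 ^ (b + 1))).symm
  set G := gs (2 ^ (b + 1)) n with hG
  have hgs : gs (2 ^ (b + 1)) (n + 1) = 1 + 2 ^ (b + 1) * G := rfl
  set e := b + 1 - s with he
  have hes : 2 ^ (b + 1) = 2 ^ s * 2 ^ e := by
    rw [← pow_add]
    congr 1
    omega
  show (W >>> s &&& (gs (2 ^ (b + 1)) (n + 1) * (2 ^ e - 1))) + gs (2 ^ (b + 1)) (n + 1) * (2 ^ b - 2 ^ (b - s)) =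
    (w / 2 ^ s + (2 ^ b - 2 ^ (b - s))) + 2 ^ (b + 1) * ((U >>> s &&& (G * (2 ^ e - 1))) + G * (2 ^ b - 2 ^ (b - s)))
  have e1 : W >>> s = (w / 2 ^ s + 2 ^ e * (U % 2 ^ s)) + 2 ^ (b + 1) * (U >>> s) := by
    rw [Nat.shiftRight_eq_div_pow, Nat.shiftRight_eq_div_pow, hW, hes, mul_assoc,
      Nat.add_mul_div_left _ _ (by positivity)]
    have h2 : U = U % 2 ^ s + 2 ^ s * (U / 2 ^ s) := (Nat.mod_add_div U (2 ^ s)).symm
    have h3 : 2 ^ e * U = 2 ^ e * (U % 2 ^ s) + 2 ^ s * 2 ^ e * (U / 2 ^ s) := by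
      conv_lhs => rw [h2]
      ring
    rw [h3]
    ring
  have hw3 : w / 2 ^ s < 2 ^ e := by
    rw [Nat.div_lt_iff_lt_mul (by positivity), mul_comm, ← hes]
    exact hwB
  have hL : w / 2 ^ s + 2 ^ e * (U % 2 ^ s) < 2 ^ (b + 1) := by
    have h4 : U % 2 ^ s + 1 ≤ 2 ^ s := Nat.mod_lt _ (by positivity)
    calc w / 2 ^ s + 2 ^ e * (U % 2 ^ s) < 2 ^ e + 2 ^ e * (U % 2 ^ s) := by omega
      _ = 2 ^ e * (U % 2 ^ s + 1) := by ring
      _ ≤ 2 ^ e * 2 ^ s := Nat.mul_le_mul_left _ h4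
      _ = 2 ^ (b + 1) := by rw [hes]; ring
  have hM : 2 ^ e - 1 < 2 ^ (b + 1) := by
    have : 2 ^ e ≤ 2 ^ (b + 1) := Nat.pow_le_pow_right (by norm_num) (by omega)
    have : 0 < 2 ^ e := by positivity
    omega
  have e2 : (1 + 2 ^ (b + 1) * G) * (2 ^ e - 1) = (2 ^ e - 1) + 2 ^ (b + 1) * (G * (2 ^ e - 1)) := by ring
  rw [hgs, e1, e2, land_cons hL hM, Nat.and_two_pow_sub_one_eq_mod, Nat.add_mul_mod_self_left, Nat.mod_eq_of_lt hw3]
  ring

theorem ls_fl (b s n W : ℕ) (hs : s ≤ b) :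
    ls b n (fl b s (gs (2 ^ (b + 1)) n) W) = (ls b n W).map (fun c => c / ((2 ^ s : ℕ) : ℤ)) ∧
      fl b s (gs (2 ^ (b + 1)) n) W < (2 ^ (b + 1)) ^ n := by
  induction n generalizing W with
  | zero =>
    have : fl b s (gs (2 ^ (b + 1)) 0) W = 0 := fl_zero b s W
    rw [this]
    exact ⟨rfl, by norm_num⟩
  | succ n ih =>
    obtain ⟨i1, i2⟩ := ih (W / 2 ^ (b + 1))
    rw [fl_succ b s n W hs]
    set w := W % 2 ^ (b + 1) with hw
    have hwB : w < 2 ^ (b + 1) := Nat.mod_lt _ (by positivity)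
    set F := fl b s (gs (2 ^ (b + 1)) n) (W / 2 ^ (b + 1)) with hF
    have hbs : 2 ^ b = 2 ^ s * 2 ^ (b - s) := by
      rw [← pow_add]
      congr 1
      omega
    have h1 : w / 2 ^ s < 2 ^ (b + 1 - s) := by
      rw [Nat.div_lt_iff_lt_mul (by positivity), ← pow_add]
      have : b + 1 - s + s = b + 1 := by omega
      rw [this]
      exact hwB
    have h2 : 2 ^ (b - s) ≤ 2 ^ b := Nat.pow_le_pow_right (by norm_num) (by omega)
    have h3 : 2 ^ (b + 1 - s) = 2 ^ (b - s) + 2 ^ (b - s) := by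
      have : b + 1 - s = (b - s) + 1 := by omega
      rw [this, pow_succ]
      ring
    have h4 : 2 ^ (b + 1) = 2 ^ b + 2 ^ b := by rw [pow_succ]; ring
    have hd : w / 2 ^ s + (2 ^ b - 2 ^ (b - s)) < 2 ^ (b + 1) := by
      rw [h3] at h1
      rw [h4]
      generalize w / 2 ^ s = q at *
      generalize 2 ^ (b - s) = p at *
      generalize 2 ^ b = P at *
      omega
    have m1 : ((w / 2 ^ s + (2 ^ b - 2 ^ (b - s))) + 2 ^ (b + 1) * F) % 2 ^ (b + 1) =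
        w / 2 ^ s + (2 ^ b - 2 ^ (b - s)) := by
      rw [Nat.add_mul_mod_self_left, Nat.mod_eq_of_lt hd]
    have d1 : ((w / 2 ^ s + (2 ^ b - 2 ^ (b - s))) + 2 ^ (b + 1) * F) / 2 ^ (b + 1) = F := by
      rw [Nat.add_mul_div_left _ _ (by positivity), Nat.div_eq_of_lt hd, zero_add]
    constructor
    · show (((((w / 2 ^ s + (2 ^ b - 2 ^ (b - s))) + 2 ^ (b + 1) * F) % 2 ^ (b + 1) : ℕ) : ℤ) - ((2 ^ b : ℕ) : ℤ)) ::
        ls b n (((w / 2 ^ s + (2 ^ b - 2 ^ (b - s))) + 2 ^ (b + 1) * F) / 2 ^ (b + 1)) =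
        (((w : ℤ) - ((2 ^ b : ℕ) : ℤ)) / ((2 ^ s : ℕ) : ℤ)) ::
          (ls b n (W / 2 ^ (b + 1))).map (fun c => c / ((2 ^ s : ℕ) : ℤ))
      rw [m1, d1, i1]
      congr 1
      have e1 : ((2 ^ b : ℕ) : ℤ) = ((2 ^ s : ℕ) : ℤ) * ((2 ^ (b - s) : ℕ) : ℤ) := by
        rw [hbs]; push_cast; ring
      have hs0 : ((2 ^ s : ℕ) : ℤ) ≠ 0 := by positivity
      rw [Nat.cast_add, Nat.cast_sub h2]
      have e3 : (w : ℤ) - ((2 ^ b : ℕ) : ℤ) = (w : ℤ) + ((2 ^ s : ℕ) : ℤ) * (-((2 ^ (b - s) : ℕ) : ℤ)) := by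
        rw [e1]; ring
      rw [e3, Int.add_mul_ediv_left _ _ hs0]
      push_cast
      ring
    · rw [pow_succ]
      calc (w / 2 ^ s + (2 ^ b - 2 ^ (b - s))) + 2 ^ (b + 1) * F < 2 ^ (b + 1) + 2 ^ (b + 1) * F := by omega
        _ = (F + 1) * 2 ^ (b + 1) := by ring
        _ ≤ (2 ^ (b + 1)) ^ n * 2 ^ (b + 1) := Nat.mul_le_mul_right _ i2

theorem evr_fl_le (s : ℕ) (x : ℂ) (hx : ‖x‖ = 1) (l : List ℤ) :
    ‖evr x l - (2 ^ s : ℂ) * evr x (l.map (fun c => c / ((2 ^ s : ℕ) : ℤ)))‖ ≤ l.length * 2 ^ s := by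
  induction l with
  | nil => simp [evr]
  | cons a l ih =>
    simp only [List.map_cons, evr, List.length_cons]
    have e1 : (a : ℂ) + x * evr x l - (2 ^ s : ℂ) * (((a / ((2 ^ s : ℕ) : ℤ) : ℤ) : ℂ) +
        x * evr x (l.map (fun c => c / ((2 ^ s : ℕ) : ℤ)))) = ((a % ((2 ^ s : ℕ) : ℤ) : ℤ) : ℂ) +
        x * (evr x l - (2 ^ s : ℂ) * evr x (l.map (fun c => c / ((2 ^ s : ℕ) : ℤ)))) := by
      have h1 : (a : ℂ) = ((a % ((2 ^ s : ℕ) : ℤ) : ℤ) : ℂ) + (2 ^ s : ℂ) * ((a / ((2 ^ s : ℕ) : ℤ) : ℤ) : ℂ) := by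
        have h2 := Int.emod_add_mul_ediv a ((2 ^ s : ℕ) : ℤ)
        have h3 := congrArg (fun z : ℤ => (z : ℂ)) h2
        simp only [Int.cast_add, Int.cast_mul, Nat.cast_pow, Nat.cast_ofNat] at h3
        push_cast at h3 ⊢
        exact h3.symm
      linear_combination h1
    rw [e1]
    refine (norm_add_le _ _).trans ?_
    rw [norm_mul, hx, one_mul, Complex.norm_intCast]
    have h2 : (0 : ℤ) < ((2 ^ s : ℕ) : ℤ) := by positivity
    have h3 := Int.emod_nonneg a h2.ne'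
    have h4 := (Int.emod_lt_of_pos a h2).le
    have h5 : |((a % ((2 ^ s : ℕ) : ℤ) : ℤ) : ℝ)| ≤ 2 ^ s := by
      rw [abs_of_nonneg (by exact_mod_cast h3)]
      exact_mod_cast h4
    push_cast
    push_cast at ih h5
    linarith

theorem flF_sound (b s : ℕ) (hs : s ≤ b) (z : FP) : wf b (flF b s z) = true ∧
    ∀ t, ‖V b z t - (2 ^ s : ℂ) * V b (flF b s z) t‖ ≤ 2 * (len z.N : ℝ) * 2 ^ s := by
  obtain ⟨k1, k2⟩ := ls_fl b s (len z.N) z.x hs
  obtain ⟨k3, k4⟩ := ls_fl b s (len z.N) z.y hs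
  rw [← on_eq] at k1 k2 k3 k4
  refine ⟨wf_mk b _ _ _ k2 k4, fun t => ?_⟩
  have e1 : tp b (flF b s z) = ⟨(ls b (len z.N) z.x).map (fun c => c / ((2 ^ s : ℕ) : ℤ)),
      (ls b (len z.N) z.y).map (fun c => c / ((2 ^ s : ℕ) : ℤ))⟩ := by
    show (⟨ls b (len z.N) (fl b s (on b (len z.N)) z.x), ls b (len z.N) (fl b s (on b (len z.N)) z.y)⟩ : TP) = _
    rw [k1, k3]
  have e2 : (flF b s z).N = z.N := rfl
  unfold V
  rw [e1, e2]
  have e3 : tp b z = ⟨ls b (len z.N) z.x, ls b (len z.N) z.y⟩ := rfl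
  rw [e3]
  unfold T TP.ev
  simp only
  have h1 := evr_fl_le s (ee t) (norm_ee t) (ls b (len z.N) z.x)
  have h2 := evr_fl_le s (ee t) (norm_ee t) (ls b (len z.N) z.y)
  rw [length_ls] at h1 h2
  set p := evr (ee t) (ls b (len z.N) z.x)
  set q := evr (ee t) (ls b (len z.N) z.y)
  set p' := evr (ee t) ((ls b (len z.N) z.x).map (fun c => c / ((2 ^ s : ℕ) : ℤ)))
  set q' := evr (ee t) ((ls b (len z.N) z.y).map (fun c => c / ((2 ^ s : ℕ) : ℤ)))
  have e4 : ee (-((z.N : ℝ) * t)) * (p + Complex.I * q) - (2 ^ s : ℂ) * (ee (-((z.N : ℝ) * t)) * (p' + Complex.I * q')) =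
    ee (-((z.N : ℝ) * t)) * ((p - 2 ^ s * p') + Complex.I * (q - 2 ^ s * q')) := by ring
  rw [e4, norm_mul, norm_ee, one_mul]
  refine (norm_add_le _ _).trans ?_
  rw [norm_mul, Complex.norm_I, one_mul]
  linarith

/-! ## Windows -/

/-- the digits `k .. k + n - 1` -/
def win (b k n W : ℕ) : ℕ := Nat.mod (Nat.shiftRight W (Nat.mul (Nat.succ b) k)) (Nat.pow (Nat.pow 2 (Nat.succ b)) n)
/-- bound of the `ℓ¹` norm of the lowest `k` digits and of the digits `k + n .. 2 k + n - 1` -/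
def tl (b r k n W : ℕ) : ℕ := Nat.add (l1F b r k (Nat.mod W (Nat.pow (Nat.pow 2 (Nat.succ b)) k)))
  (l1F b r k (Nat.shiftRight W (Nat.mul (Nat.succ b) (Nat.add k n))))
/-- the window `-M .. M` -/
def winF (b M : ℕ) (z : FP) : FP := ⟨M, win b (Nat.sub z.N M) (len M) z.x, win b (Nat.sub z.N M) (len M) z.y⟩
/-- the tail -/
def tlF (b r M : ℕ) (z : FP) : ℕ :=
  Nat.add (tl b r (Nat.sub z.N M) (len M) z.x) (tl b r (Nat.sub z.N M) (len M) z.y)

theorem ls_append (b k n W : ℕ) : ls b (k + n) W = ls b k W ++ ls b n (W / (2 ^ (b + 1)) ^ k) := by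
  induction k generalizing W with
  | zero => simp [lst]
  | succ k ih =>
    have e : k + 1 + n = (k + n) + 1 := by ring
    rw [e]
    show (((W % 2 ^ (b + 1) : ℕ) : ℤ) - ((2 ^ b : ℕ) : ℤ)) :: ls b (k + n) (W / 2 ^ (b + 1)) =
      (((W % 2 ^ (b + 1) : ℕ) : ℤ) - ((2 ^ b : ℕ) : ℤ)) :: (ls b k (W / 2 ^ (b + 1)) ++ _)
    have e2 : (2 ^ (b + 1)) ^ (k + 1) = 2 ^ (b + 1) * (2 ^ (b + 1)) ^ k := pow_succ' _ _
    rw [ih, e2, Nat.div_div_eq_div_mul]

theorem ls_mod (b n m W : ℕ) (h : n ≤ m) : ls b n (W % (2 ^ (b + 1)) ^ m) = ls b n W := by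
  induction n generalizing W m with
  | zero => rfl
  | succ n ih =>
    obtain ⟨m, rfl⟩ : ∃ m', m = m' + 1 := ⟨m - 1, by omega⟩
    have e1 : W % (2 ^ (b + 1)) ^ (m + 1) =
        W % 2 ^ (b + 1) + 2 ^ (b + 1) * (W / 2 ^ (b + 1) % (2 ^ (b + 1)) ^ m) := by
      rw [pow_succ, mul_comm ((2 ^ (b + 1)) ^ m), Nat.mod_mul]
    show (((W % (2 ^ (b + 1)) ^ (m + 1) % 2 ^ (b + 1) : ℕ) : ℤ) - ((2 ^ b : ℕ) : ℤ)) ::
      ls b n (W % (2 ^ (b + 1)) ^ (m + 1) / 2 ^ (b + 1)) = (((W % 2 ^ (b + 1) : ℕ) : ℤ) - ((2 ^ b : ℕ) : ℤ)) ::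
      ls b n (W / 2 ^ (b + 1))
    rw [e1, Nat.add_mul_mod_self_left, Nat.mod_mod, Nat.add_mul_div_left _ _ (by positivity),
      Nat.div_eq_of_lt (Nat.mod_lt _ (by positivity)), zero_add, ih m (W / 2 ^ (b + 1)) (by omega)]

theorem win_eq (b k n W : ℕ) : win b k n W = W / (2 ^ (b + 1)) ^ k % (2 ^ (b + 1)) ^ n := by
  show (W >>> ((b + 1) * k)) % (2 ^ (b + 1)) ^ n = _
  rw [Nat.shiftRight_eq_div_pow, pow_mul]

theorem winF_sound (b r M : ℕ) (hr : r ≤ b + 1) (z : FP) (hM : M ≤ z.N) : wf b (winF b M z) = true ∧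
    ∀ t, ‖V b z t - V b (winF b M z) t‖ ≤ tlF b r M z := by
  have hlt : ∀ W, win b (z.N - M) (len M) W < (2 ^ (b + 1)) ^ (len M) := by
    intro W
    rw [win_eq]
    exact Nat.mod_lt _ (by positivity)
  refine ⟨wf_mk b _ _ _ (hlt _) (hlt _), fun t => ?_⟩
  set k := z.N - M with hk
  have hlen : len z.N = k + (len M + k) := by rw [len_eq, len_eq]; omega
  -- the lists
  have hls : ∀ W, ls b (len z.N) W = ls b k W ++ (ls b (len M) (win b k (len M) W) ++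
      ls b k (W / (2 ^ (b + 1)) ^ (k + len M))) := by
    intro W
    rw [hlen, ls_append, ls_append, win_eq, ls_mod b _ _ _ le_rfl, Nat.div_div_eq_div_mul, ← pow_add]
  have hNk : z.N = M + k := by omega
  have hev : ∀ W (x : ℂ), evr x (ls b (len z.N) W) = evr x (ls b k W) + x ^ k * (evr x (ls b (len M) (win b k (len M) W))
      + x ^ (len M) * evr x (ls b k (W / (2 ^ (b + 1)) ^ (k + len M)))) := by
    intro W x
    rw [hls, evr_append, evr_append, length_ls, length_ls]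
  have hl1 : ∀ W, l1 (ls b k W) ≤ l1F b r k (W % (2 ^ (b + 1)) ^ k) := by
    intro W
    rw [← ls_mod b k k W le_rfl]
    exact l1F_le b r k _ hr
  have hl2 : ∀ W, l1 (ls b k (W / (2 ^ (b + 1)) ^ (k + len M))) ≤ l1F b r k (W >>> ((b + 1) * (k + len M))) := by
    intro W
    rw [Nat.shiftRight_eq_div_pow, pow_mul]
    exact l1F_le b r k _ hr
  have hx : ‖ee t‖ = 1 := norm_ee t
  have htl : ∀ W, ‖evr (ee t) (ls b (len z.N) W) - ee t ^ k * evr (ee t) (ls b (len M) (win b k (len M) W))‖ ≤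
      (tl b r k (len M) W : ℕ) := by
    intro W
    rw [hev]
    have e1 : evr (ee t) (ls b k W) + ee t ^ k * (evr (ee t) (ls b (len M) (win b k (len M) W)) +
        ee t ^ (len M) * evr (ee t) (ls b k (W / (2 ^ (b + 1)) ^ (k + len M)))) -
        ee t ^ k * evr (ee t) (ls b (len M) (win b k (len M) W)) = evr (ee t) (ls b k W) +
        ee t ^ k * (ee t ^ (len M) * evr (ee t) (ls b k (W / (2 ^ (b + 1)) ^ (k + len M)))) := by ring
    rw [e1]
    refine (norm_add_le _ _).trans ?_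
    rw [norm_mul, norm_mul, norm_pow, norm_pow, hx, one_pow, one_pow, one_mul, one_mul]
    have a1 := TP.norm_evr_le (ee t) hx (ls b k W)
    have a2 := TP.norm_evr_le (ee t) hx (ls b k (W / (2 ^ (b + 1)) ^ (k + len M)))
    have e2 : tl b r k (len M) W = l1F b r k (W % (2 ^ (b + 1)) ^ k) + l1F b r k (W >>> ((b + 1) * (k + len M))) := rfl
    rw [e2]
    push_cast
    have b1 : ((l1 (ls b k W) : ℕ) : ℝ) ≤ (l1F b r k (W % (2 ^ (b + 1)) ^ k) : ℕ) := by exact_mod_cast hl1 W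
    have b2 : ((l1 (ls b k (W / (2 ^ (b + 1)) ^ (k + len M))) : ℕ) : ℝ) ≤
        (l1F b r k (W >>> ((b + 1) * (k + len M))) : ℕ) := by exact_mod_cast hl2 W
    linarith
  have h1 := htl z.x
  have h2 := htl z.y
  unfold V
  have e2 : (winF b M z).N = M := rfl
  have e3 : tp b z = ⟨ls b (len z.N) z.x, ls b (len z.N) z.y⟩ := rfl
  have e4 : tp b (winF b M z) = ⟨ls b (len M) (win b k (len M) z.x), ls b (len M) (win b k (len M) z.y)⟩ := rfl
  rw [e2, e3, e4]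
  unfold T TP.ev
  simp only
  have hee : ee (-((M : ℝ) * t)) = ee (-((z.N : ℝ) * t)) * ee t ^ k := by
    rw [← ee_nat, ← ee_add, hNk]
    congr 1
    push_cast
    ring
  rw [hee]
  set p := evr (ee t) (ls b (len z.N) z.x)
  set q := evr (ee t) (ls b (len z.N) z.y)
  set p' := evr (ee t) (ls b (len M) (win b k (len M) z.x))
  set q' := evr (ee t) (ls b (len M) (win b k (len M) z.y))
  have e5 : ee (-((z.N : ℝ) * t)) * (p + Complex.I * q) - ee (-((z.N : ℝ) * t)) * ee t ^ k * (p' + Complex.I * q') =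
    ee (-((z.N : ℝ) * t)) * ((p - ee t ^ k * p') + Complex.I * (q - ee t ^ k * q')) := by ring
  rw [e5, norm_mul, norm_ee, one_mul]
  refine (norm_add_le _ _).trans ?_
  rw [norm_mul, Complex.norm_I, one_mul]
  have e6 : tlF b r M z = tl b r k (len M) z.x + tl b r k (len M) z.y := rfl
  rw [e6]
  push_cast
  linarith

end Helper54.RC.Fast
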