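import Pool.Agent.Helper54.RC.Fast3

/-!
# Fast kernel arithmetic for trigonometric polynomials, III

Padding, encoding of short lists, monomials, conjugates, coefficients, approximations of functions and products of
approximations with certified errors, chains of powers.
-/

set_option autoImplicit false

open Helper49.LT

namespace Helper54.RC.Fast

open Helper76.RC.TPoly

/-! ## Encoding -/

/-- the code of a list of integers -/
def encL (b : ℕ) : List ℤ → ℕ
  | [] => 0
  | a :: l => Nat.add (Int.toNat (Int.add a (Int.ofNat (Nat.pow 2 b)))) (Nat.mul (Nat.pow 2 (Nat.succ b)) (encL b l))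

/-- all entries are in `[-2^b, 2^b)` -/
def rng (b : ℕ) : List ℤ → Bool
  | [] => true
  | a :: l => bif Nat.ble (Nat.succ a.natAbs) (Nat.pow 2 b) then rng b l else false

theorem encL_sound (b : ℕ) (l : List ℤ) (h : rng b l = true) :
    ls b l.length (encL b l) = l ∧ encL b l < (2 ^ (b + 1)) ^ l.length := by
  induction l with
  | nil => exact ⟨rfl, by simp [encL]⟩
  | cons a l ih =>
    unfold rng at h
    cases h1 : Nat.ble (Nat.succ a.natAbs) (Nat.pow 2 b) with
    | false => rw [h1] at h; simp at h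
    | true =>
      rw [h1] at h
      obtain ⟨i1, i2⟩ := ih h
      have h2 : a.natAbs < 2 ^ b := Nat.le_of_ble_eq_true h1
      have e1 : encL b (a :: l) = (a + ((2 ^ b : ℕ) : ℤ)).toNat + 2 ^ (b + 1) * encL b l := rfl
      have h4 : 2 ^ (b + 1) = 2 ^ b + 2 ^ b := by rw [pow_succ]; ring
      have h5 : (a + ((2 ^ b : ℕ) : ℤ)).toNat < 2 ^ (b + 1) := by
        rw [h4]
        generalize 2 ^ b = P at *
        omega
      have h6 : (((a + ((2 ^ b : ℕ) : ℤ)).toNat : ℕ) : ℤ) = a + ((2 ^ b : ℕ) : ℤ) := by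
        generalize 2 ^ b = P at *
        omega
      constructor
      · rw [e1]
        show (((((a + ((2 ^ b : ℕ) : ℤ)).toNat + 2 ^ (b + 1) * encL b l) % 2 ^ (b + 1) : ℕ) : ℤ) - ((2 ^ b : ℕ) : ℤ)) ::
          ls b l.length (((a + ((2 ^ b : ℕ) : ℤ)).toNat + 2 ^ (b + 1) * encL b l) / 2 ^ (b + 1)) = a :: l
        rw [Nat.add_mul_mod_self_left, Nat.mod_eq_of_lt h5, Nat.add_mul_div_left _ _ (by positivity),
          Nat.div_eq_of_lt h5, zero_add, i1, h6]
        congr 1
        ring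
      · rw [e1, List.length_cons, pow_succ]
        calc (a + ((2 ^ b : ℕ) : ℤ)).toNat + 2 ^ (b + 1) * encL b l < 2 ^ (b + 1) + 2 ^ (b + 1) * encL b l := by omega
          _ = (encL b l + 1) * 2 ^ (b + 1) := by ring
          _ ≤ (2 ^ (b + 1)) ^ l.length * 2 ^ (b + 1) := Nat.mul_le_mul_right _ i2

/-- a trigonometric polynomial from two lists of length `2 N + 1` -/
def ofL (b N : ℕ) (re im : List ℤ) : FP := ⟨N, encL b re, encL b im⟩

theorem ofL_sound (b N : ℕ) (re im : List ℤ) (h1 : re.length = len N) (h2 : im.length = len N)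
    (h3 : rng b re = true) (h4 : rng b im = true) :
    wf b (ofL b N re im) = true ∧ ∀ t, V b (ofL b N re im) t = T N ⟨re, im⟩ t := by
  obtain ⟨k1, k2⟩ := encL_sound b re h3
  obtain ⟨k3, k4⟩ := encL_sound b im h4
  rw [h1] at k1 k2
  rw [h2] at k3 k4
  refine ⟨wf_mk b _ _ _ k2 k4, fun t => ?_⟩
  show T N (TP.lit b (len N) (encL b re) (encL b im)) t = _
  have : TP.lit b (len N) (encL b re) (encL b im) = ⟨re, im⟩ := by
    show (⟨ls b (len N) (encL b re), ls b (len N) (encL b im)⟩ : TP) = _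
    rw [k1, k3]
  rw [this]

/-! ## Padding, constants and monomials -/

theorem gs_add (B k n : ℕ) : gs B (k + n) = gs B k + B ^ k * gs B n := by
  induction k with
  | zero => simp [gs]
  | succ k ih =>
    have e : k + 1 + n = (k + n) + 1 := by ring
    rw [e, gs, gs, ih, pow_succ]
    ring

theorem evz_append (B : ℤ) (l m : List ℤ) : evz B (l ++ m) = evz B l + B ^ l.length * evz B m := by
  have := evr_append B l m
  simp only [evz_eq]
  exact this

theorem evz_rep (B : ℤ) (n : ℕ) : evz B (List.replicate n 0) = 0 := by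
  have := evr_replicate_zero B n
  simp only [evz_eq]
  exact this

/-- padding of a list -/
def padN (b k n X : ℕ) : ℕ :=
  Nat.add (of b k) (Nat.mul (Nat.pow (Nat.pow 2 (Nat.succ b)) k)
    (Nat.add X (Nat.mul (Nat.pow (Nat.pow 2 (Nat.succ b)) n) (of b k))))

theorem ls_pad (b k n X : ℕ) (hX : X < (2 ^ (b + 1)) ^ n) :
    ls b (k + (n + k)) (padN b k n X) = List.replicate k 0 ++ (ls b n X ++ List.replicate k 0) ∧
      padN b k n X < (2 ^ (b + 1)) ^ (k + (n + k)) := by
  have e : padN b k n X = of b k + (2 ^ (b + 1)) ^ k * (X + (2 ^ (b + 1)) ^ n * of b k) := rfl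
  have a1 := evz_lst' b n X hX
  refine ls_of b _ _ ?_ ?_ _ ?_
  · simp [length_ls]
  · intro c hc
    simp only [List.mem_append] at hc
    have z : ∀ m, c ∈ List.replicate m (0 : ℤ) → -((2 ^ b : ℕ) : ℤ) ≤ c ∧ c < (2 ^ b : ℕ) := by
      intro m hm
      have := List.eq_of_mem_replicate hm
      subst this
      have : 0 < 2 ^ b := by positivity
      constructor <;> omega
    rcases hc with hc | hc | hc
    · exact z _ hc
    · -- digits
      clear a1 e z
      induction n generalizing X with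
      | zero => simp [lst] at hc
      | succ n ih =>
        have h0 : c ∈ (((X % 2 ^ (b + 1) : ℕ) : ℤ) - ((2 ^ b : ℕ) : ℤ)) :: ls b n (X / 2 ^ (b + 1)) := hc
        rcases List.mem_cons.1 h0 with h1 | h1
        · have : X % 2 ^ (b + 1) < 2 ^ (b + 1) := Nat.mod_lt _ (by positivity)
          have h4 : 2 ^ (b + 1) = 2 ^ b + 2 ^ b := by rw [pow_succ]; ring
          rw [h1]
          generalize X % 2 ^ (b + 1) = m at *
          rw [h4] at this
          generalize 2 ^ b = P at *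
          constructor <;> omega
        · refine ih (X / 2 ^ (b + 1)) ?_ h1
          rw [Nat.div_lt_iff_lt_mul (by positivity), ← pow_succ]
          exact hX
    · exact z _ hc
  · rw [e, evz_append, evz_append, evz_rep, List.length_replicate, length_ls, of_eq, gs_add, gs_add]
    push_cast
    rw [a1]
    push_cast
    ring

/-- the same polynomial with frequencies `-(N + k) .. N + k` -/
def padF (b k : ℕ) (z : FP) : FP := ⟨Nat.add z.N k, padN b k (len z.N) z.x, padN b k (len z.N) z.y⟩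

theorem padF_sound (b k : ℕ) (z : FP) (hz : wf b z = true) : wf b (padF b k z) = true ∧
    ∀ t, V b (padF b k z) t = V b z t := by
  rw [wf_iff] at hz
  obtain ⟨k1, k2⟩ := ls_pad b k (len z.N) z.x hz.1
  obtain ⟨k3, k4⟩ := ls_pad b k (len z.N) z.y hz.2
  have e1 : k + (len z.N + k) = len (z.N + k) := by rw [len_eq, len_eq]; ring
  rw [e1] at k1 k2 k3 k4
  refine ⟨wf_mk b _ _ _ k2 k4, fun t => ?_⟩
  show T (z.N + k) (TP.lit b (len (z.N + k)) (padN b k (len z.N) z.x) (padN b k (len z.N) z.y)) t = _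
  have : TP.lit b (len (z.N + k)) (padN b k (len z.N) z.x) (padN b k (len z.N) z.y) = (tp b z).pad k := by
    show (⟨ls b (len (z.N + k)) (padN b k (len z.N) z.x), ls b (len (z.N + k)) (padN b k (len z.N) z.y)⟩ : TP) = _
    rw [k1, k3]
    rfl
  rw [this, T_pad]
  rfl

/-- one coefficient `p - q` at the position `k` -/
def moN (b n k p q : ℕ) : ℕ :=
  Nat.sub (Nat.add (of b n) (Nat.mul p (Nat.pow (Nat.pow 2 (Nat.succ b)) k))) (Nat.mul q (Nat.pow (Nat.pow 2 (Nat.succ b)) k))

theorem ls_mo (b n k p q : ℕ) (hk : k < n) (hp : p < 2 ^ b) (hq : q < 2 ^ b) :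
    ls b n (moN b n k p q) = List.replicate k 0 ++ (((p : ℤ) - q) :: List.replicate (n - k - 1) 0) ∧
      moN b n k p q < (2 ^ (b + 1)) ^ n := by
  have e : moN b n k p q = of b n + p * (2 ^ (b + 1)) ^ k - q * (2 ^ (b + 1)) ^ k := rfl
  rw [e]
  refine ls_sub b n _ ?_ ?_ _ _ ?_
  · simp
    omega
  · intro c hc
    simp only [List.mem_append, List.mem_cons] at hc
    have z : ∀ m, c ∈ List.replicate m (0 : ℤ) → -((2 ^ b : ℕ) : ℤ) ≤ c ∧ c < (2 ^ b : ℕ) := by
      intro m hm
      have := List.eq_of_mem_replicate hm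
      subst this
      have : 0 < 2 ^ b := by positivity
      constructor <;> omega
    rcases hc with hc | hc | hc
    · exact z _ hc
    · subst hc
      constructor <;> omega
    · exact z _ hc
  · rw [evz_append, evz_rep, List.length_replicate]
    simp only [evz]
    rw [evz_rep, of_eq]
    push_cast
    ring

/-- the monomial `((p - q) + i (p' - q')) ee ((k - N) t)` -/
def moF (b N k p q p' q' : ℕ) : FP := ⟨N, moN b (len N) k p q, moN b (len N) k p' q'⟩

theorem moF_sound (b N k p q p' q' : ℕ) (hk : k ≤ 2 * N) (hp : p < 2 ^ b) (hq : q < 2 ^ b) (hp' : p' < 2 ^ b)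
    (hq' : q' < 2 ^ b) : wf b (moF b N k p q p' q') = true ∧
    ∀ t, V b (moF b N k p q p' q') t = (((p : ℂ) - q) + Complex.I * ((p' : ℂ) - q')) * ee (((k : ℝ) - N) * t) := by
  have hk' : k < len N := by rw [len_eq]; omega
  obtain ⟨k1, k2⟩ := ls_mo b (len N) k p q hk' hp hq
  obtain ⟨k3, k4⟩ := ls_mo b (len N) k p' q' hk' hp' hq'
  refine ⟨wf_mk b _ _ _ k2 k4, fun t => ?_⟩
  show T N (TP.lit b (len N) (moN b (len N) k p q) (moN b (len N) k p' q')) t = _
  have : TP.lit b (len N) (moN b (len N) k p q) (moN b (len N) k p' q') =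
      ⟨List.replicate k 0 ++ (((p : ℤ) - q) :: List.replicate (len N - k - 1) 0),
        List.replicate k 0 ++ (((p' : ℤ) - q') :: List.replicate (len N - k - 1) 0)⟩ := by
    show (⟨ls b (len N) (moN b (len N) k p q), ls b (len N) (moN b (len N) k p' q')⟩ : TP) = _
    rw [k1, k3]
  rw [this]
  unfold T TP.ev
  simp only [evr_append, evr_replicate_zero, evr, List.length_replicate]
  have h1 : ee (((k : ℝ) - N) * t) = ee (-((N : ℝ) * t)) * ee t ^ k := by
    rw [← ee_nat, ← ee_add]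
    congr 1
    ring
  rw [h1]
  push_cast
  ring

/-! ## Conjugates -/

/-- reversal of the digits -/
def rvN (b : ℕ) : ℕ → ℕ → ℕ → ℕ
  | 0, _, acc => acc
  | n + 1, X, acc => rvN b n (Nat.div X (Nat.pow 2 (Nat.succ b)))
      (Nat.add (Nat.mod X (Nat.pow 2 (Nat.succ b))) (Nat.mul (Nat.pow 2 (Nat.succ b)) acc))

theorem ls_rv (b n m X acc : ℕ) : ls b (n + m) (rvN b n X acc) = (ls b n X).reverse ++ ls b m acc := by
  induction n generalizing X acc m with
  | zero => simp [lst, rvN]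
  | succ n ih =>
    have e : n + 1 + m = n + (m + 1) := by ring
    have e1 : rvN b (n + 1) X acc = rvN b n (X / 2 ^ (b + 1)) (X % 2 ^ (b + 1) + 2 ^ (b + 1) * acc) := rfl
    rw [e, e1, ih]
    have hd : X % 2 ^ (b + 1) < 2 ^ (b + 1) := Nat.mod_lt _ (by positivity)
    have e2 : ls b (m + 1) (X % 2 ^ (b + 1) + 2 ^ (b + 1) * acc) =
        (((X % 2 ^ (b + 1) : ℕ) : ℤ) - ((2 ^ b : ℕ) : ℤ)) :: ls b m acc := by
      show (((((X % 2 ^ (b + 1) + 2 ^ (b + 1) * acc) % 2 ^ (b + 1) : ℕ) : ℤ) - ((2 ^ b : ℕ) : ℤ))) ::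
        ls b m ((X % 2 ^ (b + 1) + 2 ^ (b + 1) * acc) / 2 ^ (b + 1)) = _
      rw [Nat.add_mul_mod_self_left, Nat.mod_mod, Nat.add_mul_div_left _ _ (by positivity), Nat.div_eq_of_lt hd,
        zero_add]
    have e3 : ls b (n + 1) X = (((X % 2 ^ (b + 1) : ℕ) : ℤ) - ((2 ^ b : ℕ) : ℤ)) :: ls b n (X / 2 ^ (b + 1)) := rfl
    rw [e2, e3, List.reverse_cons, List.append_assoc]
    rfl

theorem rvN_lt (b n m X acc : ℕ) (h : acc < (2 ^ (b + 1)) ^ m) : rvN b n X acc < (2 ^ (b + 1)) ^ (n + m) := by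
  induction n generalizing X acc m with
  | zero =>
    rw [Nat.zero_add]
    exact h
  | succ n ih =>
    have e : n + 1 + m = n + (m + 1) := by ring
    have e1 : rvN b (n + 1) X acc = rvN b n (X / 2 ^ (b + 1)) (X % 2 ^ (b + 1) + 2 ^ (b + 1) * acc) := rfl
    rw [e, e1]
    refine ih (m + 1) _ _ ?_
    have hd : X % 2 ^ (b + 1) < 2 ^ (b + 1) := Nat.mod_lt _ (by positivity)
    rw [pow_succ]
    calc X % 2 ^ (b + 1) + 2 ^ (b + 1) * acc < 2 ^ (b + 1) + 2 ^ (b + 1) * acc := by omega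
      _ = (acc + 1) * 2 ^ (b + 1) := by ring
      _ ≤ (2 ^ (b + 1)) ^ m * 2 ^ (b + 1) := Nat.mul_le_mul_right _ h

/-- conjugate -/
def cjF (b : ℕ) (z : FP) : FP :=
  ⟨z.N, rvN b (len z.N) z.x 0, Nat.sub (Nat.mul 2 (of b (len z.N))) (rvN b (len z.N) z.y 0)⟩

theorem l1_append (l m : List ℤ) : l1 (l ++ m) = l1 l + l1 m := by
  induction l with
  | nil => simp [l1]
  | cons a l ih => simp [l1, ih]; ring

theorem l1_reverse (l : List ℤ) : l1 l.reverse = l1 l := by
  induction l with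
  | nil => rfl
  | cons a l ih => rw [List.reverse_cons, l1_append, ih]; simp [l1]; ring

theorem cjF_sound (b r : ℕ) (hr : r ≤ b + 1) (z : FP) (h : okn b r z = true) :
    wf b (cjF b z) = true ∧ ∀ t, V b (cjF b z) t = (starRingEnd ℂ) (V b z t) := by
  have h : nrF b r z < 2 ^ b := Nat.le_of_ble_eq_true h
  have p1 := nr_parts b r hr z
  have r1 := ls_rv b (len z.N) 0 z.x 0
  have r2 := ls_rv b (len z.N) 0 z.y 0
  have t1 := rvN_lt b (len z.N) 0 z.x 0 (by simp)
  have t2 := rvN_lt b (len z.N) 0 z.y 0 (by simp)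
  simp only [Nat.add_zero, lst, List.append_nil] at r1 r2 t1 t2
  obtain ⟨k3, k4⟩ := ls_neg b (len z.N) (rvN b (len z.N) z.y 0) t2 (by
    rw [r2, l1_reverse]
    omega)
  refine ⟨wf_mk b _ _ _ t1 k4, fun t => ?_⟩
  have e : tp b (cjF b z) = (tp b z).cj := by
    show (⟨ls b (len z.N) (rvN b (len z.N) z.x 0), ls b (len z.N) (2 * of b (len z.N) - rvN b (len z.N) z.y 0)⟩ : TP) = _
    rw [k3, r1, r2]
    rfl
  unfold V
  rw [e]
  have hl : (tp b z).isLen (2 * z.N + 1) = true := by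
    rw [TP.isLen_iff]
    exact ⟨length_ls b _ _, length_ls b _ _⟩
  exact T_cj z.N (tp b z) hl t

/-! ## Coefficients -/

/-- the `k`-th digit -/
def dg (b k X : ℕ) : ℕ := Nat.mod (Nat.shiftRight X (Nat.mul (Nat.succ b) k)) (Nat.pow 2 (Nat.succ b))

/-- the complex coefficient of the frequency `k - N` -/
noncomputable def cc (b : ℕ) (z : FP) (k : ℕ) : ℂ :=
  ((dg b k z.x : ℂ) - 2 ^ b) + Complex.I * ((dg b k z.y : ℂ) - 2 ^ b)

theorem evr_ls (b n X : ℕ) (x : ℂ) : evr x (ls b n X) = ∑ k ∈ Finset.range n, ((dg b k X : ℂ) - 2 ^ b) * x ^ k := by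
  induction n generalizing X with
  | zero => simp [lst, evr]
  | succ n ih =>
    rw [Finset.sum_range_succ']
    show ((((X % 2 ^ (b + 1) : ℕ) : ℤ) - ((2 ^ b : ℕ) : ℤ) : ℤ) : ℂ) + x * evr x (ls b n (X / 2 ^ (b + 1))) = _
    rw [ih]
    have e0 : dg b 0 X = X % 2 ^ (b + 1) := by
      show X >>> ((b + 1) * 0) % 2 ^ (b + 1) = _
      simp
    have e1 : ∀ k, dg b k (X / 2 ^ (b + 1)) = dg b (k + 1) X := by
      intro k
      show (X / 2 ^ (b + 1)) >>> ((b + 1) * k) % 2 ^ (b + 1) = X >>> ((b + 1) * (k + 1)) % 2 ^ (b + 1)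
      rw [Nat.shiftRight_eq_div_pow, Nat.shiftRight_eq_div_pow, Nat.div_div_eq_div_mul, ← pow_add]
      have e5 : b + 1 + (b + 1) * k = (b + 1) * (k + 1) := by ring
      rw [e5]
    have e4 : ((((X % 2 ^ (b + 1) : ℕ) : ℤ) - ((2 ^ b : ℕ) : ℤ) : ℤ) : ℂ) = ((X % 2 ^ (b + 1) : ℕ) : ℂ) - 2 ^ b := by
      rw [Int.cast_sub, Int.cast_natCast, Int.cast_natCast]
      push_cast
      rfl
    rw [e0, Finset.mul_sum, e4]
    have e2 : ∑ k ∈ Finset.range n, x * (((dg b k (X / 2 ^ (b + 1)) : ℂ) - 2 ^ b) * x ^ k) =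
        ∑ k ∈ Finset.range n, ((dg b (k + 1) X : ℂ) - 2 ^ b) * x ^ (k + 1) := by
      refine Finset.sum_congr rfl fun k _ => ?_
      rw [e1, pow_succ]
      ring
    rw [e2, pow_zero, mul_one, add_comm]

/-- the polynomial as a finite sum -/
theorem V_eq_sum (b : ℕ) (z : FP) (t : ℝ) :
    V b z t = ∑ k ∈ Finset.range (len z.N), cc b z k * ee (((k : ℝ) - z.N) * t) := by
  unfold V T
  have e : tp b z = ⟨ls b (len z.N) z.x, ls b (len z.N) z.y⟩ := rfl
  rw [e]
  unfold TP.ev
  simp only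
  rw [evr_ls, evr_ls, Finset.mul_sum, ← Finset.sum_add_distrib, Finset.mul_sum]
  refine Finset.sum_congr rfl fun k _ => ?_
  have h1 : ee (((k : ℝ) - z.N) * t) = ee (-((z.N : ℝ) * t)) * ee t ^ k := by
    rw [← ee_nat, ← ee_add]
    congr 1
    ring
  rw [h1]
  unfold cc
  ring

/-! ## Approximations -/

theorem le_mul_div_succ (s E : ℕ) : E ≤ 2 ^ s * (E / 2 ^ s + 1) := by
  have h4 := Nat.div_add_mod E (2 ^ s)
  have h5 : E % 2 ^ s < 2 ^ s := Nat.mod_lt _ (by positivity)
  rw [mul_add, mul_one]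
  omega

/-- `z` approximates `2 ^ s f` with the error `er` -/
def Ap (b s : ℕ) (z : FP) (er : ℕ) (f : ℝ → ℂ) : Prop :=
  wf b z = true ∧ ∀ t, ‖V b z t - (2 ^ s : ℂ) * f t‖ ≤ er

/-- a polynomial with an error -/
structure PF where
  z : FP
  er : ℕ

/-- `AP b s p f`: the pair `p` approximates `2 ^ s f` -/
def AP (b s : ℕ) (p : PF) (f : ℝ → ℂ) : Prop := Ap b s p.z p.er f

/-- window with the tail added to the error -/
def stepB (b r M er : ℕ) (Q : FP) : PF := ⟨winF b M Q, Nat.add (tlF b r M Q) (Nat.add (Nat.mul 2 (len Q.N)) er)⟩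
def stepA (b s r M er : ℕ) (P : FP) : PF := stepB b r M er (flF b s P)
/-- the product with rounding; `F, G` are bounds of `2 ^ s |f|`, `2 ^ s |g|` -/
def stepG (b s r M F G : ℕ) (p q : PF) : PF :=
  stepA b s r M (Nat.succ (Nat.div (Nat.add (Nat.mul p.er (Nat.add G q.er)) (Nat.mul F q.er)) (Nat.pow 2 s)))
    (mulF b p.z q.z)
/-- the conditions -/
def okG (b r M : ℕ) (p q : PF) : Bool :=
  bif okm b r p.z q.z then Nat.ble M (Nat.add p.z.N q.z.N) else false

theorem okG_iff (b r M : ℕ) (p q : PF) (h : okG b r M p q = true) : okm b r p.z q.z = true ∧ M ≤ p.z.N + q.z.N := by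
  unfold okG at h
  cases h1 : okm b r p.z q.z with
  | false => rw [h1] at h; simp at h
  | true =>
    rw [h1] at h
    exact ⟨rfl, Nat.le_of_ble_eq_true h⟩

theorem stepG_sound (b s r M F G : ℕ) (hr : r ≤ b + 1) (hs : s ≤ b) (p q : PF) (f g : ℝ → ℂ)
    (hf : ∀ t, (2 ^ s : ℝ) * ‖f t‖ ≤ F) (hg : ∀ t, (2 ^ s : ℝ) * ‖g t‖ ≤ G) (hp : AP b s p f) (hq : AP b s q g)
    (h : okG b r M p q = true) : AP b s (stepG b s r M F G p q) (fun t => f t * g t) := by
  obtain ⟨h1, h2⟩ := okG_iff b r M p q h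
  obtain ⟨w1, a1⟩ := hp
  obtain ⟨w2, a2⟩ := hq
  obtain ⟨w3, a3⟩ := mulF_sound b r hr p.z q.z w1 w2 h1
  obtain ⟨w4, a4⟩ := flF_sound b s hs (mulF b p.z q.z)
  have hN : (flF b s (mulF b p.z q.z)).N = p.z.N + q.z.N := rfl
  obtain ⟨w5, a5⟩ := winF_sound b r M hr (flF b s (mulF b p.z q.z)) (by rw [hN]; exact h2)
  refine ⟨w5, fun t => ?_⟩
  have e1 : (stepG b s r M F G p q).z = winF b M (flF b s (mulF b p.z q.z)) := rfl
  have e2 : (stepG b s r M F G p q).er = tlF b r M (flF b s (mulF b p.z q.z)) +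
    (2 * len (mulF b p.z q.z).N + ((p.er * (G + q.er) + F * q.er) / 2 ^ s + 1)) := rfl
  rw [e1, e2]
  have b1 := a1 t
  have b2 := a2 t
  have b3 := a3 t
  have b4 := a4 t
  have b5 := a5 t
  rw [b3] at b4
  set X := V b p.z t
  set Y := V b q.z t
  set W := V b (flF b s (mulF b p.z q.z)) t
  set Z := V b (winF b M (flF b s (mulF b p.z q.z))) t
  have hS : (0 : ℝ) < 2 ^ s := by positivity
  have hSn : ‖(2 ^ s : ℂ)‖ = 2 ^ s := by simp
  have c1 : ‖Y‖ ≤ G + q.er := by
    have e3 : Y = (2 ^ s : ℂ) * g t + (Y - (2 ^ s : ℂ) * g t) := by ring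
    rw [e3]
    refine (norm_add_le _ _).trans ?_
    rw [norm_mul, hSn]
    have := hg t
    linarith
  have c2 : ‖X * Y - (2 ^ s : ℂ) * (2 ^ s : ℂ) * (f t * g t)‖ ≤ p.er * (G + q.er) + F * q.er := by
    have e3 : X * Y - (2 ^ s : ℂ) * (2 ^ s : ℂ) * (f t * g t) =
      (X - (2 ^ s : ℂ) * f t) * Y + ((2 ^ s : ℂ) * f t) * (Y - (2 ^ s : ℂ) * g t) := by ring
    rw [e3]
    refine (norm_add_le _ _).trans ?_
    rw [norm_mul, norm_mul, norm_mul, hSn]
    have d1 : ‖X - (2 ^ s : ℂ) * f t‖ * ‖Y‖ ≤ p.er * (G + q.er) :=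
      mul_le_mul b1 c1 (norm_nonneg _) (Nat.cast_nonneg _)
    have d2 : (2 ^ s : ℝ) * ‖f t‖ * ‖Y - (2 ^ s : ℂ) * g t‖ ≤ F * q.er :=
      mul_le_mul (hf t) b2 (norm_nonneg _) (Nat.cast_nonneg _)
    linarith
  have c3 : (2 ^ s : ℝ) * ‖Z - (2 ^ s : ℂ) * (f t * g t)‖ ≤
      2 ^ s * tlF b r M (flF b s (mulF b p.z q.z)) + 2 * (len (mulF b p.z q.z).N : ℝ) * 2 ^ s +
        (p.er * (G + q.er) + F * q.er) := by
    have e3 : (2 ^ s : ℂ) * (Z - (2 ^ s : ℂ) * (f t * g t)) = -((2 ^ s : ℂ) * (W - Z)) -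
      (X * Y - (2 ^ s : ℂ) * W) + (X * Y - (2 ^ s : ℂ) * (2 ^ s : ℂ) * (f t * g t)) := by ring
    have e4 : (2 ^ s : ℝ) * ‖Z - (2 ^ s : ℂ) * (f t * g t)‖ = ‖(2 ^ s : ℂ) * (Z - (2 ^ s : ℂ) * (f t * g t))‖ := by
      rw [norm_mul, hSn]
    rw [e4, e3]
    refine (norm_add_le _ _).trans ?_
    have d1 := norm_sub_le (-((2 ^ s : ℂ) * (W - Z))) (X * Y - (2 ^ s : ℂ) * W)
    rw [norm_neg, norm_mul, hSn] at d1
    have d2 : (2 ^ s : ℝ) * ‖W - Z‖ ≤ 2 ^ s * tlF b r M (flF b s (mulF b p.z q.z)) :=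
      mul_le_mul_of_nonneg_left b5 hS.le
    linarith
  have c4 : (p.er * (G + q.er) + F * q.er : ℝ) ≤ 2 ^ s * ((((p.er * (G + q.er) + F * q.er) / 2 ^ s + 1 : ℕ)) : ℝ) := by
    have h3 : p.er * (G + q.er) + F * q.er ≤ 2 ^ s * ((p.er * (G + q.er) + F * q.er) / 2 ^ s + 1) :=
      le_mul_div_succ s _
    exact_mod_cast h3
  have c5 : (2 ^ s : ℝ) * ‖Z - (2 ^ s : ℂ) * (f t * g t)‖ ≤ 2 ^ s * ((tlF b r M (flF b s (mulF b p.z q.z)) +
    (2 * len (mulF b p.z q.z).N + ((p.er * (G + q.er) + F * q.er) / 2 ^ s + 1)) : ℕ) : ℝ) := by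
    rw [Nat.cast_add, Nat.cast_add, Nat.cast_mul]
    rw [mul_add, mul_add]
    have : (2 ^ s : ℝ) * (((2 : ℕ) : ℝ) * ((len (mulF b p.z q.z).N : ℕ) : ℝ)) =
      2 * (len (mulF b p.z q.z).N : ℝ) * 2 ^ s := by push_cast; ring
    rw [this]
    linarith
  exact le_of_mul_le_mul_left c5 hS

/-! ## Chains of powers -/

/-- unit functions -/
def stepU (b s r M : ℕ) (p q : PF) : PF := stepG b s r M (Nat.pow 2 s) (Nat.pow 2 s) p q

theorem stepU_sound (b s r M : ℕ) (hr : r ≤ b + 1) (hs : s ≤ b) (p q : PF) (u : ℝ → ℂ) (hu : ∀ t, ‖u t‖ = 1)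
    (i j : ℕ) (hp : AP b s p (fun t => u t ^ i)) (hq : AP b s q (fun t => u t ^ j))
    (h : okG b r M p q = true) : AP b s (stepU b s r M p q) (fun t => u t ^ (i + j)) := by
  have hb : ∀ k : ℕ, ∀ t, (2 ^ s : ℝ) * ‖u t ^ k‖ ≤ ((2 ^ s : ℕ) : ℝ) := by
    intro k t
    rw [norm_pow, hu, one_pow, mul_one]
    push_cast
    exact le_rfl
  have := stepG_sound b s r M (2 ^ s) (2 ^ s) hr hs p q _ _ (hb i) (hb j) hp hq h
  refine ⟨this.1, fun t => ?_⟩
  have h2 := this.2 t
  simp only at h2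
  rw [← pow_add] at h2
  exact h2

/-- the chain `x, x y, x y ^ 2, ...` (in reverse order in front of `acc`); the windows are given by the list -/
def chain (b s r : ℕ) (y : PF) : List ℕ → PF → List PF → Option (List PF)
  | [], x, acc => some (x :: acc)
  | M :: l, x, acc => bif okG b r M x y then chain b s r y l (stepU b s r M x y) (x :: acc) else none

/-- the members of the chain are approximations of `u ^ i, u ^ (i + d), ...` -/
theorem chain_sound (b s r : ℕ) (hr : r ≤ b + 1) (hs : s ≤ b) (u : ℝ → ℂ) (hu : ∀ t, ‖u t‖ = 1) (d : ℕ) (y : PF)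
    (hy : AP b s y (fun t => u t ^ d)) (l : List ℕ) : ∀ (i : ℕ) (x : PF) (acc res : List PF),
    AP b s x (fun t => u t ^ (i + acc.length * d)) →
    (∀ (k : ℕ) (p : PF), acc.reverse[k]? = some p → AP b s p (fun t => u t ^ (i + k * d))) →
    chain b s r y l x acc = some res →
    ∀ (k : ℕ) (p : PF), res.reverse[k]? = some p → AP b s p (fun t => u t ^ (i + k * d)) := by
  induction l with
  | nil =>
    intro i x acc res hx hacc h k p hp
    have e : chain b s r y [] x acc = some (x :: acc) := rfl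
    rw [e, Option.some.injEq] at h
    subst h
    rw [List.reverse_cons] at hp
    by_cases hk : k < acc.reverse.length
    · rw [List.getElem?_append_left hk] at hp
      exact hacc k p hp
    · rw [List.getElem?_append_right (by omega)] at hp
      rw [List.length_reverse] at hp hk
      have hk2 : k = acc.length := by
        by_contra hne
        have : k - acc.length ≠ 0 := by omega
        obtain ⟨m, hm⟩ : ∃ m, k - acc.length = m + 1 := ⟨k - acc.length - 1, by omega⟩
        rw [hm] at hp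
        simp at hp
      rw [hk2] at hp
      simp only [Nat.sub_self, List.getElem?_cons_zero, Option.some.injEq] at hp
      rw [← hp, hk2]
      exact hx
  | cons M l ih =>
    intro i x acc res hx hacc h k p hp
    have e : chain b s r y (M :: l) x acc =
      bif okG b r M x y then chain b s r y l (stepU b s r M x y) (x :: acc) else none := rfl
    rw [e] at h
    cases h1 : okG b r M x y with
    | false => rw [h1] at h; simp at h
    | true =>
      rw [h1] at h
      refine ih i _ (x :: acc) res ?_ ?_ h k p hp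
      · have := stepU_sound b s r M hr hs x y u hu _ d hx hy h1
        have e2 : i + (x :: acc).length * d = i + acc.length * d + d := by
          rw [List.length_cons]; ring
        rw [e2]
        exact this
      · intro k' p' hp'
        rw [List.reverse_cons] at hp'
        by_cases hk : k' < acc.reverse.length
        · rw [List.getElem?_append_left hk] at hp'
          exact hacc k' p' hp'
        · rw [List.getElem?_append_right (by omega)] at hp'
          rw [List.length_reverse] at hp' hk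
          have hk2 : k' = acc.length := by
            by_contra hne
            obtain ⟨m, hm⟩ : ∃ m, k' - acc.length = m + 1 := ⟨k' - acc.length - 1, by omega⟩
            rw [hm] at hp'
            simp at hp'
          rw [hk2] at hp'
          simp only [Nat.sub_self, List.getElem?_cons_zero, Option.some.injEq] at hp'
          rw [← hp', hk2]
          exact hx

end Helper54.RC.Fast
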