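import Pool.Agent.Helper76.RC.Wien

/-!
# Powers of unit vectors (cell engine, module W2)

`AP SC u m x`: the stored trigonometric polynomial `x` approximates `SC * u ^ m` with the error `x.er` (integer units).
`chkS` is the kernel check of one product, `chkO` of the chain of the odd powers `1, 3, 5, ...`.
-/

open Helper49.LT

namespace Helper54.RC

open Helper76.RC.TPoly

/-- a stored trigonometric polynomial: shift, coefficients, error -/
structure PW where
  N : ℕ
  p : TP
  er : ℕ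

/-- multiplication by an integer -/
def smL (c : ℤ) (l : List ℤ) : List ℤ := l.map (c * ·)
def smT (c : ℤ) (p : TP) : TP := ⟨smL c p.re, smL c p.im⟩

theorem T_smT (N : ℕ) (c : ℤ) (p : TP) (t : ℝ) : T N (smT c p) t = c * T N p t := by
  unfold T TP.ev smT smL
  rw [evr_map_mul, evr_map_mul]
  ring

/-- `x` approximates `SC * u ^ m` -/
def AP (SC : ℕ) (u : ℝ → ℂ) (m : ℕ) (x : PW) : Prop := ∀ t, ‖T x.N x.p t - (SC : ℂ) * u t ^ m‖ ≤ x.er

/-- the check of one product `x * y ≈ z` -/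
def chkS (e SC : ℕ) (x y z : PW) : Bool :=
  TP.ok e x.p y.p && (Nat.ble z.N (x.N + y.N) &&
    Nat.ble (((TP.mul e x.p y.p).sub ((smT SC z.p).pad (x.N + y.N - z.N))).nrm + x.er * (SC + y.er) + SC * y.er)
      (SC * z.er))

theorem chkS_sound {e SC : ℕ} {x y z : PW} (h : chkS e SC x y z = true) (hSC : 0 < SC) {u : ℝ → ℂ}
    (hu : ∀ t, ‖u t‖ = 1) {i j : ℕ} (hx : AP SC u i x) (hy : AP SC u j y) : AP SC u (i + j) z := by
  unfold chkS at h
  simp only [Bool.and_eq_true] at h
  obtain ⟨h1, h2, h3⟩ := h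
  have h2 := Nat.le_of_ble_eq_true h2
  have h3 := Nat.le_of_ble_eq_true h3
  intro t
  have hS : (0 : ℝ) < SC := by exact_mod_cast hSC
  have a1 := norm_T_le (x.N + y.N) ((TP.mul e x.p y.p).sub ((smT SC z.p).pad (x.N + y.N - z.N))) t
  have a2 : T (x.N + y.N) ((smT SC z.p).pad (x.N + y.N - z.N)) t = (SC : ℂ) * T z.N z.p t := by
    have e1 : x.N + y.N = z.N + (x.N + y.N - z.N) := by omega
    have e2 := T_pad z.N (x.N + y.N - z.N) (smT SC z.p) t
    rw [← e1] at e2
    rw [e2, T_smT]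
    push_cast
    rfl
  rw [T_sub, T_mul _ _ _ _ _ h1, a2] at a1
  set X := T x.N x.p t
  set Y := T y.N y.p t
  set Z := T z.N z.p t
  set U := u t ^ i
  set V := u t ^ j
  have hU : ‖U‖ = 1 := by rw [norm_pow, hu, one_pow]
  have hV : ‖V‖ = 1 := by rw [norm_pow, hu, one_pow]
  have b1 : ‖X - SC * U‖ ≤ x.er := hx t
  have b2 : ‖Y - SC * V‖ ≤ y.er := hy t
  have hSn : ‖(SC : ℂ)‖ = SC := by simp
  have b3 : ‖Y‖ ≤ SC + y.er := by
    have : Y = SC * V + (Y - SC * V) := by ring
    rw [this]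
    refine (norm_add_le _ _).trans ?_
    rw [norm_mul, hSn, hV, mul_one]
    linarith
  have e1 : (SC : ℂ) * (Z - SC * u t ^ (i + j)) = -(X * Y - SC * Z) + ((X - SC * U) * Y + SC * U * (Y - SC * V)) := by
    rw [pow_add]
    ring
  have b4 : ‖(X - SC * U) * Y‖ ≤ x.er * (SC + y.er) := by
    rw [norm_mul]
    exact mul_le_mul b1 b3 (norm_nonneg _) (Nat.cast_nonneg _)
  have b5 : ‖(SC : ℂ) * U * (Y - SC * V)‖ ≤ SC * y.er := by
    rw [norm_mul, norm_mul, hSn, hU, mul_one]
    exact mul_le_mul_of_nonneg_left b2 hS.le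
  have b6 : (SC : ℝ) * ‖Z - SC * u t ^ (i + j)‖ ≤ SC * z.er := by
    have : ‖(SC : ℂ) * (Z - SC * u t ^ (i + j))‖ = SC * ‖Z - SC * u t ^ (i + j)‖ := by
      rw [norm_mul, hSn]
    rw [← this, e1]
    refine (norm_add_le _ _).trans ?_
    rw [norm_neg]
    have b7 := norm_add_le ((X - SC * U) * Y) ((SC : ℂ) * U * (Y - SC * V))
    have h3' : ((((TP.mul e x.p y.p).sub ((smT SC z.p).pad (x.N + y.N - z.N))).nrm : ℕ) : ℝ)
        + x.er * (SC + y.er) + SC * y.er ≤ SC * z.er := by exact_mod_cast h3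
    linarith
  exact le_of_mul_le_mul_left b6 hS

/-- the chain: each element is the product of its predecessor with `s` -/
def chkC (e SC : ℕ) (s : PW) : PW → List PW → Bool
  | _, [] => true
  | x, y :: l => chkS e SC x s y && chkC e SC s y l

theorem chkC_sound {e SC : ℕ} (hSC : 0 < SC) {u : ℝ → ℂ} (hu : ∀ t, ‖u t‖ = 1) {d : ℕ} {s : PW}
    (hs : AP SC u d s) (l : List PW) : ∀ {i : ℕ} {x : PW}, AP SC u i x → chkC e SC s x l = true →
    ∀ (k : ℕ) (y : PW), (x :: l)[k]? = some y → AP SC u (i + k * d) y := by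
  induction l with
  | nil =>
    intro i x hx _ k y hy
    cases k with
    | zero =>
      simp only [List.getElem?_cons_zero, Option.some.injEq] at hy
      subst hy
      simpa using hx
    | succ k => simp at hy
  | cons z l ih =>
    intro i x hx h k y hy
    unfold chkC at h
    rw [Bool.and_eq_true] at h
    cases k with
    | zero =>
      simp only [List.getElem?_cons_zero, Option.some.injEq] at hy
      subst hy
      simpa using hx
    | succ k =>
      have hz := chkS_sound h.1 hSC hu hx hs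
      rw [List.getElem?_cons_succ] at hy
      have := ih hz h.2 k y hy
      rw [add_mul, one_mul]
      have e1 : i + (k * d + d) = i + d + k * d := by ring
      rw [e1]
      exact this

/-- the odd powers: `v` (power `1`), `s` (power `2`), `l` (powers `3, 5, 7, ...`) -/
def chkO (e SC : ℕ) (v s : PW) (l : List PW) : Bool := chkS e SC v v s && chkC e SC s v l

/-- W2: all odd powers -/
theorem chkO_sound {e SC : ℕ} {v s : PW} {l : List PW} (h : chkO e SC v s l = true) (hSC : 0 < SC)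
    {u : ℝ → ℂ} (hu : ∀ t, ‖u t‖ = 1) (hv : AP SC u 1 v) (k : ℕ) (y : PW) (hy : (v :: l)[k]? = some y) :
    AP SC u (2 * k + 1) y := by
  unfold chkO at h
  rw [Bool.and_eq_true] at h
  have hs : AP SC u 2 s := chkS_sound h.1 hSC hu hv hv
  have := chkC_sound hSC hu hs l hv h.2 k y hy
  have e1 : 2 * k + 1 = 1 + k * 2 := by ring
  rw [e1]
  exact this

/-- the start from the Wiener certificate of helper76 -/
theorem AP_of_wiener {SC N er : ℕ} {v : TP} (hSC : 0 < SC) {u : ℝ → ℂ} {ε : ℝ}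
    (h : ∀ t, ‖T N v t / (((SC : ℕ) : ℤ) : ℂ) - u t‖ ≤ ε) (he : ε * SC ≤ er) : AP SC u 1 ⟨N, v, er⟩ := by
  intro t
  have hS : (0 : ℝ) < SC := by exact_mod_cast hSC
  have hSc : (SC : ℂ) ≠ 0 := by exact_mod_cast hSC.ne'
  have h1 := h t
  have e1 : T N v t - (SC : ℂ) * u t ^ 1 = (SC : ℂ) * (T N v t / (((SC : ℕ) : ℤ) : ℂ) - u t) := by
    push_cast
    field_simp
  simp only
  rw [e1, norm_mul]
  have : ‖(SC : ℂ)‖ = SC := by simp
  rw [this]
  calc (SC : ℝ) * ‖T N v t / (((SC : ℕ) : ℤ) : ℂ) - u t‖ ≤ SC * ε := mul_le_mul_of_nonneg_left h1 hS.le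
    _ ≤ er := by rw [mul_comm]; exact he

end Helper54.RC
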