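import Pool.Agent.Helper54.RC.Fast4

/-!
# Unit vectors in the fast format (cell engine, module W1, fast version)

`okW b r s v d δ G = true` gives `‖V b v t - 2 ^ s D t / ‖D t‖‖ ≤ erW ..` for every continuous `D` with
`‖c D t - V b d t‖ ≤ δ` and `G ≤ c ‖D t‖` (for some `c > 0`). No other data. The sign is fixed at `t = 0`.
-/

set_option autoImplicit false

open Helper49.LT

namespace Helper54.RC.Fast

open Helper76.RC.TPoly

/-! ## Value at `t = 0` -/

/-- sum of the first `n` digits -/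
def sdg (b : ℕ) : ℕ → ℕ → ℕ
  | 0, _ => 0
  | n + 1, X => Nat.add (Nat.mod X (Nat.pow 2 (Nat.succ b))) (sdg b n (Nat.div X (Nat.pow 2 (Nat.succ b))))

theorem evr_one (b n X : ℕ) : evr (1 : ℂ) (ls b n X) = (sdg b n X : ℂ) - (n : ℂ) * 2 ^ b := by
  induction n generalizing X with
  | zero => simp [lst, evr, sdg]
  | succ n ih =>
    show ((((X % 2 ^ (b + 1) : ℕ) : ℤ) - ((2 ^ b : ℕ) : ℤ) : ℤ) : ℂ) + 1 * evr 1 (ls b n (X / 2 ^ (b + 1))) = _
    rw [ih]
    have e : sdg b (n + 1) X = X % 2 ^ (b + 1) + sdg b n (X / 2 ^ (b + 1)) := rfl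
    have e4 : ((((X % 2 ^ (b + 1) : ℕ) : ℤ) - ((2 ^ b : ℕ) : ℤ) : ℤ) : ℂ) = ((X % 2 ^ (b + 1) : ℕ) : ℂ) - 2 ^ b := by
      rw [Int.cast_sub, Int.cast_natCast, Int.cast_natCast]
      push_cast
      rfl
    rw [e, e4, Nat.cast_add]
    push_cast
    ring

theorem ee_zero' : ee 0 = 1 := ee_zero

theorem V_zero (b : ℕ) (z : FP) : V b z 0 = ((sdg b (len z.N) z.x : ℂ) - (len z.N : ℂ) * 2 ^ b) +
    Complex.I * ((sdg b (len z.N) z.y : ℂ) - (len z.N : ℂ) * 2 ^ b) := by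
  unfold V T
  have e : tp b z = ⟨ls b (len z.N) z.x, ls b (len z.N) z.y⟩ := rfl
  rw [e, mul_zero, neg_zero, ee_zero', one_mul]
  unfold TP.ev
  simp only
  rw [evr_one, evr_one]

/-- `0 < Re (conj v(0) d(0))`; `p, q` the sums of digits, `m`, `n` the sums of the offsets -/
def posW (mg p q m p' q' n : ℕ) : Bool :=
  Nat.ble (Nat.succ (Nat.add mg (Nat.add (Nat.mul n (Nat.add p q)) (Nat.mul m (Nat.add p' q')))))
    (Nat.add (Nat.mul p p') (Nat.add (Nat.mul q q') (Nat.mul 2 (Nat.mul m n))))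

theorem posW_sound (mg p q m p' q' n : ℕ) (h : posW mg p q m p' q' n = true) :
    (mg : ℝ) < ((p : ℝ) - m) * ((p' : ℝ) - n) + ((q : ℝ) - m) * ((q' : ℝ) - n) := by
  have h1 : (mg + (n * (p + q) + m * (p' + q'))) + 1 ≤ p * p' + (q * q' + 2 * (m * n)) := Nat.le_of_ble_eq_true h
  have h2 : (((mg + (n * (p + q) + m * (p' + q'))) + 1 : ℕ) : ℝ) ≤ ((p * p' + (q * q' + 2 * (m * n)) : ℕ) : ℝ) := by
    exact_mod_cast h1
  push_cast at h2
  nlinarith

def offs (b N : ℕ) : ℕ := Nat.mul (len N) (Nat.pow 2 b)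

def pos0 (b mg : ℕ) (v d : FP) : Bool :=
  posW mg (sdg b (len v.N) v.x) (sdg b (len v.N) v.y) (offs b v.N) (sdg b (len d.N) d.x) (sdg b (len d.N) d.y) (offs b d.N)

theorem pos0_sound (b mg : ℕ) (v d : FP) (h : pos0 b mg v d = true) :
    (mg : ℝ) < ((starRingEnd ℂ) (V b v 0) * V b d 0).re := by
  have h1 := posW_sound _ _ _ _ _ _ _ h
  have e1 : ((offs b v.N : ℕ) : ℝ) = (len v.N : ℝ) * 2 ^ b := by
    show ((len v.N * 2 ^ b : ℕ) : ℝ) = _
    push_cast; ring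
  have e2 : ((offs b d.N : ℕ) : ℝ) = (len d.N : ℝ) * 2 ^ b := by
    show ((len d.N * 2 ^ b : ℕ) : ℝ) = _
    push_cast; ring
  rw [e1, e2] at h1
  rw [V_zero, V_zero]
  set p : ℝ := (sdg b (len v.N) v.x : ℝ)
  set q : ℝ := (sdg b (len v.N) v.y : ℝ)
  set p' : ℝ := (sdg b (len d.N) d.x : ℝ)
  set q' : ℝ := (sdg b (len d.N) d.y : ℝ)
  set m : ℝ := (len v.N : ℝ) * 2 ^ b
  set n : ℝ := (len d.N : ℝ) * 2 ^ b
  have f1 : ((sdg b (len v.N) v.x : ℂ) - (len v.N : ℂ) * 2 ^ b) + Complex.I * ((sdg b (len v.N) v.y : ℂ) - (len v.N : ℂ) * 2 ^ b)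
    = ((p - m : ℝ) : ℂ) + Complex.I * ((q - m : ℝ) : ℂ) := by
    simp only [p, q, m]
    push_cast
    ring
  have f2 : ((sdg b (len d.N) d.x : ℂ) - (len d.N : ℂ) * 2 ^ b) + Complex.I * ((sdg b (len d.N) d.y : ℂ) - (len d.N : ℂ) * 2 ^ b)
    = ((p' - n : ℝ) : ℂ) + Complex.I * ((q' - n : ℝ) : ℂ) := by
    simp only [p', q', n]
    push_cast
    ring
  rw [f1, f2]
  have e3 : ((starRingEnd ℂ) (((p - m : ℝ) : ℂ) + Complex.I * ((q - m : ℝ) : ℂ)) *
      (((p' - n : ℝ) : ℂ) + Complex.I * ((q' - n : ℝ) : ℂ))).re = (p - m) * (p' - n) + (q - m) * (q' - n) := by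
    simp only [map_add, map_mul, Complex.conj_ofReal, Complex.conj_I, Complex.mul_re, Complex.add_re, Complex.add_im,
      Complex.ofReal_re, Complex.ofReal_im, Complex.I_re, Complex.I_im, Complex.mul_im, Complex.neg_re, Complex.neg_im]
    ring
  rw [e3]
  exact h1

/-! ## Continuity -/

theorem cont_T (N : ℕ) (p : TP) : Continuous (T N p) := by
  have h1 : Continuous fun t : ℝ => ee t := continuous_ee
  have hev : ∀ l : List ℤ, Continuous fun t : ℝ => evr (ee t) l := by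
    intro l
    induction l with
    | nil => simp only [evr]; exact continuous_const
    | cons a l ih => simp only [evr]; exact continuous_const.add (h1.mul ih)
  unfold T TP.ev
  exact (continuous_ee.comp (continuous_const.mul continuous_id).neg).mul
    ((hev _).add (continuous_const.mul (hev _)))

theorem cont_V (b : ℕ) (z : FP) : Continuous (V b z) := cont_T _ _

/-! ## The analysis -/

/-- an approximate unit vector with a small angle to `D`, `D ≠ 0`; the sign of the real part is known -/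
theorem unitW (v D : ℂ) (S E1 β : ℝ) (hS : 0 < S) (h1 : |‖v‖ ^ 2 - S ^ 2| ≤ E1)
    (h2 : |((starRingEnd ℂ) v * D).im| ≤ β * ‖D‖) (h3 : 0 < ((starRingEnd ℂ) v * D).re) (hβ : 0 ≤ β) :
    ‖v - (S : ℂ) * (D / (‖D‖ : ℂ))‖ ≤ E1 / S + β ^ 2 / S + β := by
  have hSc : (S : ℂ) ≠ 0 := by exact_mod_cast hS.ne'
  have k := unit_close (v / (S : ℂ)) D (E1 / S ^ 2) (β / S) ?_ (by positivity) ?_ ?_
  · have e : v - (S : ℂ) * (D / (‖D‖ : ℂ)) = (S : ℂ) * (v / (S : ℂ) - D / (‖D‖ : ℂ)) := by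
      field_simp
    rw [e, norm_mul, Complex.norm_real, Real.norm_eq_abs, abs_of_pos hS]
    have := mul_le_mul_of_nonneg_left k hS.le
    refine this.trans (le_of_eq ?_)
    field_simp
  · rw [norm_div, Complex.norm_real, Real.norm_eq_abs, abs_of_pos hS, div_pow]
    have e : ‖v‖ ^ 2 / S ^ 2 - 1 = (‖v‖ ^ 2 - S ^ 2) / S ^ 2 := by field_simp
    rw [e, abs_div, abs_of_pos (by positivity : (0 : ℝ) < S ^ 2)]
    exact div_le_div_of_nonneg_right h1 (by positivity)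
  · have e : (starRingEnd ℂ) (v / (S : ℂ)) * D = ((starRingEnd ℂ) v * D) / (S : ℂ) := by
      rw [map_div₀, Complex.conj_ofReal]; ring
    rw [e, Complex.div_ofReal_im, abs_div, abs_of_pos hS, div_le_iff₀ hS]
    refine h2.trans (le_of_eq ?_)
    field_simp
  · have e : (starRingEnd ℂ) (v / (S : ℂ)) * D = ((starRingEnd ℂ) v * D) / (S : ℂ) := by
      rw [map_div₀, Complex.conj_ofReal]; ring
    rw [e, Complex.div_ofReal_re]
    exact div_pos h3 hS

/-- the sign of the real part of `conj v D` does not change -/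
theorem re_pos_of (X : ℝ → ℂ) (hX : Continuous X) (a : ℝ) (h : ∀ t, |(X t).im| < ‖X t‖)
    (h0 : 0 < (X a).re) (t : ℝ) : 0 < (X t).re := by
  by_contra hc
  push Not at hc
  have hre : Continuous fun t => (X t).re := Complex.continuous_re.comp hX
  have : (0 : ℝ) ∈ Set.range fun t => (X t).re := by
    have h1 := mem_range_of_exists_le_of_exists_ge hre ⟨t, hc⟩ ⟨a, h0.le⟩
    exact h1
  obtain ⟨c, hc⟩ := this
  simp only at hc
  have h2 := h c
  have h3 : ‖X c‖ ^ 2 = (X c).re ^ 2 + (X c).im ^ 2 := by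
    rw [← Complex.normSq_eq_norm_sq, Complex.normSq_apply]; ring
  rw [hc] at h3
  have h4 : ‖X c‖ = |(X c).im| := by
    have : ‖X c‖ ^ 2 = |(X c).im| ^ 2 := by rw [h3, sq_abs]; ring
    exact (pow_left_inj₀ (norm_nonneg _) (abs_nonneg _) (by norm_num)).1 this
  linarith

/-! ## The check -/

/-- `|v|² - S²` -/
def e1W (b r s : ℕ) (v c : FP) : ℕ :=
  nrF b r (subF b (mulF b v c) (moF b (Nat.add v.N v.N) (Nat.add v.N v.N) (Nat.pow 2 (Nat.add s s)) 0 0 0))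
/-- `Q - conj Q` -/
def e2Q (b r : ℕ) (Q : FP) : ℕ := nrF b r (subF b Q (cjF b Q))
def e2W (b r : ℕ) (c d : FP) : ℕ := e2Q b r (mulF b c d)
/-- the final error from `E1, 2 E2, S' = S + E1 / S + 1` -/
def erW1 (s E1 Bt : ℕ) : ℕ :=
  Nat.add (Nat.succ (Nat.div E1 (Nat.pow 2 s))) (Nat.add (Nat.succ (Nat.div (Nat.mul Bt Bt) (Nat.pow 2 s))) Bt)
def btW (s E1 E2 δ G : ℕ) : ℕ :=
  Nat.succ (Nat.div (Nat.add E2 (Nat.mul (Nat.add (Nat.pow 2 s) (Nat.succ (Nat.div E1 (Nat.pow 2 s)))) δ)) G)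
def erW2 (s E1 E2 δ G : ℕ) : ℕ := erW1 s E1 (btW s E1 E2 δ G)
def erW (b r s : ℕ) (v d : FP) (δ G : ℕ) : ℕ := erW2 s (e1W b r s v (cjF b v)) (e2W b r (cjF b v) d) δ G

/-- the pair `(v, error)` -/
def unF (b r s : ℕ) (v d : FP) (δ G : ℕ) : PF := ⟨v, erW b r s v d δ G⟩

def okW3 (s E1 E2 δ G : ℕ) : Bool :=
  bif Nat.ble (Nat.mul 4 E1) (Nat.pow 2 (Nat.add s s)) then Nat.ble (Nat.mul 2 (btW s E1 E2 δ G)) (Nat.pow 2 s) else false
def okW2 (b r : ℕ) (Q : FP) : Bool :=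
  bif okn b r Q then oka b r Q (cjF b Q) else false
def okW1 (b r s : ℕ) (v c d : FP) (δ G : ℕ) : Bool :=
  bif okm b r v c then
  bif okm b r c d then
  bif oka b r (mulF b v c) (moF b (Nat.add v.N v.N) (Nat.add v.N v.N) (Nat.pow 2 (Nat.add s s)) 0 0 0) then
  bif okW2 b r (mulF b c d) then
  bif pos0 b (Nat.mul (Nat.add (Nat.pow 2 s) (Nat.succ (Nat.div (e1W b r s v c) (Nat.pow 2 s)))) δ) v d then
  bif Nat.ble 1 G then
    okW3 s (e1W b r s v c) (e2W b r c d) δ G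
  else false else false else false else false else false else false
/-- THE CHECK -/
def okW (b r s : ℕ) (v d : FP) (δ G : ℕ) : Bool :=
  bif wf b v then bif wf b d then bif okn b r v then
    bif Nat.ble (Nat.succ (Nat.add s s)) b then bif Nat.ble r (Nat.succ b) then okW1 b r s v (cjF b v) d δ G
  else false else false else false else false else false

theorem bif_true {a c : Bool} : (bif a then c else false) = true ↔ a = true ∧ c = true := by
  cases a <;> simp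

theorem div_succ_le (E S : ℕ) (hS : 0 < S) : (E : ℝ) / S ≤ ((E / S + 1 : ℕ) : ℝ) := by
  rw [div_le_iff₀ (by exact_mod_cast hS)]
  have h := Nat.lt_div_mul_add hS (a := E)
  have h2 : E ≤ (E / S + 1) * S := by
    rw [add_mul, one_mul]
    omega
  exact_mod_cast h2

/-- W1: unit vectors -/
theorem unF_sound (b r s : ℕ) (v d : FP) (δ G : ℕ) (h : okW b r s v d δ G = true) (D : ℝ → ℂ) (hD : Continuous D)
    (c : ℝ) (hc : 0 < c) (h1 : ∀ t, ‖(c : ℂ) * D t - V b d t‖ ≤ δ) (h2 : ∀ t, (G : ℝ) ≤ c * ‖D t‖) :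
    AP b s (unF b r s v d δ G) (fun t => D t / (‖D t‖ : ℂ)) := by
  unfold okW at h
  simp only [bif_true] at h
  obtain ⟨wv, wd, ov, hb, hr, h⟩ := h
  have hb : s + s + 1 ≤ b := Nat.le_of_ble_eq_true hb
  have hr : r ≤ b + 1 := Nat.le_of_ble_eq_true hr
  unfold okW1 at h
  simp only [bif_true] at h
  obtain ⟨m1, m2, a1, k2, k3, k4, k5⟩ := h
  unfold okW2 at k2
  simp only [bif_true] at k2
  obtain ⟨n1, n2⟩ := k2
  unfold okW3 at k5
  simp only [bif_true] at k5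
  obtain ⟨q1, q2⟩ := k5
  have hG : 1 ≤ G := Nat.le_of_ble_eq_true k4
  obtain ⟨wc, cv⟩ := cjF_sound b r hr v ov
  obtain ⟨wP, vP⟩ := mulF_sound b r hr v (cjF b v) wv wc m1
  obtain ⟨wQ, vQ⟩ := mulF_sound b r hr (cjF b v) d wc wd m2
  have hpow : 2 ^ (s + s) < 2 ^ b := Nat.pow_lt_pow_right (by norm_num) (by omega)
  obtain ⟨wm, vm⟩ := moF_sound b (v.N + v.N) (v.N + v.N) (2 ^ (s + s)) 0 0 0 (by omega) hpow (by positivity)
    (by positivity) (by positivity)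
  obtain ⟨w5, v5⟩ := subF_sound b r hr _ _ wP wm a1
  obtain ⟨wcQ, cQ⟩ := cjF_sound b r hr (mulF b (cjF b v) d) n1
  obtain ⟨w6, v6⟩ := subF_sound b r hr _ _ wQ wcQ n2
  set E1 : ℕ := e1W b r s v (cjF b v) with hE1
  set E2 : ℕ := e2W b r (cjF b v) d with hE2
  have hSp : (0 : ℝ) < 2 ^ s := by positivity
  -- |v|^2
  have f1 : ∀ t, |‖V b v t‖ ^ 2 - (2 ^ s : ℝ) ^ 2| ≤ E1 := by
    intro t
    have g1 := norm_V_le b r hr (subF b (mulF b v (cjF b v)) (moF b (v.N + v.N) (v.N + v.N) (2 ^ (s + s)) 0 0 0)) t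
    rw [v5, vP, cv, vm, Complex.mul_conj, Complex.normSq_eq_norm_sq] at g1
    have e1 : ((‖V b v t‖ ^ 2 : ℝ) : ℂ) - (((2 ^ (s + s) : ℕ) : ℂ) - ((0 : ℕ) : ℂ) + Complex.I * (((0 : ℕ) : ℂ) - ((0 : ℕ) : ℂ))) *
        ee ((((v.N + v.N : ℕ) : ℝ) - ((v.N + v.N : ℕ) : ℝ)) * t) = ((‖V b v t‖ ^ 2 - (2 ^ s : ℝ) ^ 2 : ℝ) : ℂ) := by
      have e0 : (((v.N + v.N : ℕ) : ℝ) - ((v.N + v.N : ℕ) : ℝ)) * t = 0 := by ring
      rw [e0, ee_zero']
      push_cast
      ring
    rw [e1, Complex.norm_real, Real.norm_eq_abs] at g1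
    exact g1
  -- the imaginary part
  have f2 : ∀ t, |((starRingEnd ℂ) (V b v t) * V b d t).im| ≤ E2 := by
    intro t
    have g1 := norm_V_le b r hr (subF b (mulF b (cjF b v) d) (cjF b (mulF b (cjF b v) d))) t
    rw [v6, cQ, vQ, cv] at g1
    set X := (starRingEnd ℂ) (V b v t) * V b d t
    have a2 : X - (starRingEnd ℂ) X = ((2 * X.im : ℝ) : ℂ) * Complex.I := by
      apply Complex.ext
      · simp
      · simp
        ring
    rw [a2, norm_mul, Complex.norm_I, mul_one, Complex.norm_real, Real.norm_eq_abs, abs_mul] at g1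
    have a4 : |(2 : ℝ)| = 2 := by norm_num
    rw [a4] at g1
    have g2 : ((nrF b r (subF b (mulF b (cjF b v) d) (cjF b (mulF b (cjF b v) d))) : ℕ) : ℝ) = E2 := rfl
    rw [g2] at g1
    have := abs_nonneg X.im
    linarith
  set S' : ℕ := 2 ^ s + (E1 / 2 ^ s + 1) with hS'
  have hvn : ∀ t, ‖V b v t‖ ≤ S' := by
    intro t
    have g1 := (abs_le.1 (f1 t)).2
    have g2 := div_succ_le E1 (2 ^ s) (by positivity)
    have g3 : (E1 : ℝ) ≤ 2 ^ s * ((E1 / 2 ^ s + 1 : ℕ) : ℝ) := by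
      rw [div_le_iff₀ (by positivity)] at g2
      push_cast at g2 ⊢
      linarith
    rw [hS']
    push_cast
    push_cast at g3
    have g4 : (0 : ℝ) ≤ (E1 : ℝ) / 2 ^ s := by positivity
    have g5 : (0 : ℝ) ≤ ((E1 / 2 ^ s : ℕ) : ℝ) := Nat.cast_nonneg _
    refine abs_le_of_sq_le_sq' ?_ (by positivity) |>.2
    nlinarith
  -- the imaginary part against D
  have f3 : ∀ t, c * |((starRingEnd ℂ) (V b v t) * D t).im| ≤ E2 + S' * δ := by
    intro t
    have e1 : ((starRingEnd ℂ) (V b v t) * ((c : ℂ) * D t)) = (starRingEnd ℂ) (V b v t) * V b d t +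
      (starRingEnd ℂ) (V b v t) * ((c : ℂ) * D t - V b d t) := by ring
    have e2 : ((starRingEnd ℂ) (V b v t) * ((c : ℂ) * D t)).im = c * ((starRingEnd ℂ) (V b v t) * D t).im := by
      have : (starRingEnd ℂ) (V b v t) * ((c : ℂ) * D t) = (c : ℂ) * ((starRingEnd ℂ) (V b v t) * D t) := by ring
      rw [this, Complex.im_ofReal_mul]
    have e3 : c * |((starRingEnd ℂ) (V b v t) * D t).im| = |((starRingEnd ℂ) (V b v t) * ((c : ℂ) * D t)).im| := by
      rw [e2, abs_mul, abs_of_pos hc]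
    rw [e3, e1, Complex.add_im]
    refine (abs_add_le _ _).trans (add_le_add (f2 t) ?_)
    refine (Complex.abs_im_le_norm _).trans ?_
    rw [norm_mul, RCLike.norm_conj]
    exact mul_le_mul (hvn t) (h1 t) (norm_nonneg _) (Nat.cast_nonneg _)
  set Bt : ℕ := btW s E1 E2 δ G with hBt
  have f4 : (E2 + S' * δ : ℝ) ≤ Bt * G := by
    have g1 := div_succ_le (E2 + S' * δ) G (by omega)
    rw [div_le_iff₀ (by exact_mod_cast hG)] at g1
    have g2 : Bt = (E2 + S' * δ) / G + 1 := rfl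
    rw [g2]
    push_cast at g1 ⊢
    exact g1
  have hDpos : ∀ t, 0 < ‖D t‖ := by
    intro t
    have g1 := h2 t
    have g2 : (1 : ℝ) ≤ G := by exact_mod_cast hG
    by_contra hcon
    have g3 : ‖D t‖ = 0 := le_antisymm (not_lt.1 hcon) (norm_nonneg _)
    rw [g3, mul_zero] at g1
    linarith
  have f5 : ∀ t, |((starRingEnd ℂ) (V b v t) * D t).im| ≤ Bt * ‖D t‖ := by
    intro t
    have g1 := f3 t
    have g2 := h2 t
    have g3 : c * |((starRingEnd ℂ) (V b v t) * D t).im| ≤ c * (Bt * ‖D t‖) := by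
      calc c * |((starRingEnd ℂ) (V b v t) * D t).im| ≤ Bt * G := g1.trans f4
        _ ≤ Bt * (c * ‖D t‖) := mul_le_mul_of_nonneg_left g2 (Nat.cast_nonneg _)
        _ = c * (Bt * ‖D t‖) := by ring
    exact le_of_mul_le_mul_left g3 hc
  -- lower bound of |v|
  have f6 : ∀ t, (Bt : ℝ) < ‖V b v t‖ := by
    intro t
    have g1 := (abs_le.1 (f1 t)).1
    have g2 : 4 * E1 ≤ 2 ^ (s + s) := Nat.le_of_ble_eq_true q1
    have g3 : 2 * Bt ≤ 2 ^ s := Nat.le_of_ble_eq_true q2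
    have g4 : (4 * E1 : ℝ) ≤ (2 ^ s : ℝ) ^ 2 := by
      have : ((4 * E1 : ℕ) : ℝ) ≤ ((2 ^ (s + s) : ℕ) : ℝ) := by exact_mod_cast g2
      push_cast at this
      rw [pow_add] at this
      rw [sq]
      exact this
    have g5 : (2 * Bt : ℝ) ≤ 2 ^ s := by exact_mod_cast g3
    have g6 : (0 : ℝ) ≤ Bt := Nat.cast_nonneg _
    refine lt_of_pow_lt_pow_left₀ 2 (norm_nonneg _) ?_
    nlinarith
  have f7 : ∀ t, |((starRingEnd ℂ) (V b v t) * D t).im| < ‖(starRingEnd ℂ) (V b v t) * D t‖ := by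
    intro t
    rw [norm_mul, RCLike.norm_conj]
    exact lt_of_le_of_lt (f5 t) (mul_lt_mul_of_pos_right (f6 t) (hDpos t))
  -- sign at zero
  have f8 : 0 < ((starRingEnd ℂ) (V b v 0) * D 0).re := by
    have g1 := pos0_sound b (S' * δ) v d k3
    have e1 : (starRingEnd ℂ) (V b v 0) * V b d 0 = (starRingEnd ℂ) (V b v 0) * ((c : ℂ) * D 0) -
      (starRingEnd ℂ) (V b v 0) * ((c : ℂ) * D 0 - V b d 0) := by ring
    have e2 : ((starRingEnd ℂ) (V b v 0) * ((c : ℂ) * D 0)).re = c * ((starRingEnd ℂ) (V b v 0) * D 0).re := by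
      have : (starRingEnd ℂ) (V b v 0) * ((c : ℂ) * D 0) = (c : ℂ) * ((starRingEnd ℂ) (V b v 0) * D 0) := by ring
      rw [this, Complex.re_ofReal_mul]
    have e3 : |((starRingEnd ℂ) (V b v 0) * ((c : ℂ) * D 0 - V b d 0)).re| ≤ S' * δ := by
      refine (Complex.abs_re_le_norm _).trans ?_
      rw [norm_mul, RCLike.norm_conj]
      exact mul_le_mul (hvn 0) (h1 0) (norm_nonneg _) (Nat.cast_nonneg _)
    rw [e1, Complex.sub_re, e2] at g1
    have e4 := (abs_le.1 e3).1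
    push_cast at g1 e4
    have e5 : 0 < c * ((starRingEnd ℂ) (V b v 0) * D 0).re := by linarith
    exact (mul_pos_iff_of_pos_left hc).1 e5
  have f9 := re_pos_of (fun t => (starRingEnd ℂ) (V b v t) * D t)
    ((Complex.continuous_conj.comp (cont_V b v)).mul hD) 0 f7 f8
  refine ⟨wv, fun t => ?_⟩
  have f10 := unitW (V b v t) (D t) (2 ^ s) E1 Bt hSp (f1 t) (f5 t) (f9 t) (Nat.cast_nonneg _)
  have e1 : (unF b r s v d δ G).z = v := rfl
  have e2 : (unF b r s v d δ G).er = (E1 / 2 ^ s + 1) + ((Bt * Bt / 2 ^ s + 1) + Bt) := rfl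
  rw [e1, e2]
  push_cast at f10
  refine f10.trans ?_
  have g1 := div_succ_le E1 (2 ^ s) (by positivity)
  have g2 := div_succ_le (Bt * Bt) (2 ^ s) (by positivity)
  rw [Nat.cast_add, Nat.cast_add]
  push_cast at g1 g2 ⊢
  have e3 : (Bt : ℝ) ^ 2 / 2 ^ s = (Bt : ℝ) * Bt / 2 ^ s := by rw [sq]
  rw [e3]
  linarith

end Helper54.RC.Fast
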